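import Pool.Agent.Helper79.DM.H1
import Pool.Agent.Helper71.DM.G
import Pool.Agent.Helper55.DM.A

/-!
# Final assembly
-/

set_option autoImplicit false
set_option linter.unusedSectionVars false

namespace Pool.Agent.Helper79.DM

open Polynomial Finset

theorem deg_ne_finite (p : ℕ) [Fact p.Prime] (K : Type) [Field K] [CharP K p] (f g : K[X])
    (hfg : g.natDegree < f.natDegree) (x y : K) (h : MvPolynomial (Fin 2) K) (h0 : h ≠ 0)
    (hx : ¬ (Set.range (orb f x)).Finite) (hy : ¬ (Set.range (orb g y)).Finite) :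
    (ret f g x y h).Finite := by
  obtain ⟨L, _, _, _, _, _, A, I, _, σ, N, hB, hinj, hfin, hliou⟩ :=
    exists_places p K (↑f.coeffs ∪ ↑g.coeffs ∪ ↑h.coeffs ∪ {x, y})
      (((f.coeffs.finite_toSet.union g.coeffs.finite_toSet).union h.coeffs.finite_toSet).union
        (Set.toFinite _))
  exact deg_ne_finite_of_places A σ N hinj hfin hliou f g hfg x y h h0 hB hx hy

theorem deg_ne_ep (p : ℕ) [Fact p.Prime] (K : Type) [Field K] [CharP K p] (f g : K[X])
    (hfg : f.natDegree ≠ g.natDegree) (x y : K) (h : MvPolynomial (Fin 2) K) (h0 : h ≠ 0) :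
    EP (ret f g x y h) := by
  by_cases hx : (Set.range (orb f x)).Finite
  · exact ret_ep_of_finite f g x y h hx
  by_cases hy : (Set.range (orb g y)).Finite
  · rw [ret_swap]
    exact ret_ep_of_finite g f y x _ hy
  rcases lt_or_gt_of_ne hfg with hlt | hlt
  · rw [ret_swap]
    refine EP.of_finite (deg_ne_finite p K g f hlt y x _ ?_ hy hx)
    intro hz
    apply h0
    have := MvPolynomial.rename_injective (R := K) _ (Equiv.swap (0 : Fin 2) 1).injective
    exact this (by rw [hz, map_zero])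
  · exact EP.of_finite (deg_ne_finite p K f g hlt x y h h0 hx hy)

/-- `Tame` in terms of the coefficients -/
theorem tame_iff {K : Type*} [Field K] (p : ℕ) (hp : p.Prime) (f : K[X]) :
    Tame p f ↔ ∃ e, (∀ k, f.coeff k ≠ 0 → p ^ e ∣ k) ∧ ¬ p ∣ f.natDegree / p ^ e := by
  constructor
  · rintro ⟨e, f₁, hf, hp1⟩
    have hpe : 0 < p ^ e := pow_pos hp.pos e
    refine ⟨e, fun k hk => ?_, ?_⟩
    · by_contra hcon
      apply hk
      rw [hf, coeff_expand hpe, if_neg hcon]
    · rw [hf, natDegree_expand, Nat.mul_div_cancel _ hpe]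
      exact hp1
  · rintro ⟨e, hk, hp1⟩
    have hpe : 0 < p ^ e := pow_pos hp.pos e
    have h1 : expand K (p ^ e) (contract (p ^ e) f) = f := by
      ext k
      rw [coeff_expand hpe]
      by_cases hd : p ^ e ∣ k
      · rw [if_pos hd, coeff_contract hpe.ne', Nat.div_mul_cancel hd]
      · rw [if_neg hd]
        by_contra hne
        exact hd (hk k (Ne.symm hne))
    refine ⟨e, contract (p ^ e) f, h1.symm, ?_⟩
    have h2 : f.natDegree / p ^ e = (contract (p ^ e) f).natDegree := by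
      conv_lhs => rw [← h1, natDegree_expand, Nat.mul_div_cancel _ hpe]
    rw [← h2]
    exact hp1

section bounded

variable {L : Type*} [NormedField L] [IsUltrametricDist L]

/-- on the curve `x` is bounded in terms of `y` -/
theorem pure_bound (h : MvPolynomial (Fin 2) L) (hp : PureTop h 0) (B : ℝ) :
    ∃ C : ℝ, ∀ a b : L, ‖b‖ ≤ B → MvPolynomial.eval ![a, b] h = 0 → ‖a‖ ≤ C := by
  classical
  obtain ⟨hpos, hpure⟩ := hp
  set D := h.degreeOf 0 with hD
  -- the top monomial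
  have hDs : D = h.support.sup fun m => m 0 := by rw [hD, MvPolynomial.degreeOf_eq_sup]
  obtain ⟨ms, hms, hmsD⟩ : ∃ m ∈ h.support, m 0 = D := by
    have hne : h.support.Nonempty := by
      by_contra hcon
      rw [Finset.not_nonempty_iff_eq_empty] at hcon
      rw [hDs, hcon] at hpos
      simp at hpos
    obtain ⟨m, hm, hm'⟩ := Finset.exists_mem_eq_sup h.support hne (fun m => m 0)
    exact ⟨m, hm, by rw [hDs, hm']⟩
  have hms1 : ms 1 = 0 := hpure ms hms hmsD 1 (by decide)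
  have huniq : ∀ m ∈ h.support, m ≠ ms → m 0 < D := by
    intro m hm hne
    have hle : m 0 ≤ D := MvPolynomial.monomial_le_degreeOf 0 hm
    refine lt_of_le_of_ne hle fun he => hne ?_
    ext i
    fin_cases i
    · show m 0 = ms 0
      rw [he, hmsD]
    · show m 1 = ms 1
      rw [hms1, hpure m hm he 1 (by decide)]
  set c := ‖h.coeff ms‖ with hc
  have hc0 : 0 < c := norm_pos_iff.2 (MvPolynomial.mem_support_iff.1 hms)
  set B' := max B 1 with hB'
  have hB1 : 1 ≤ B' := le_max_right _ _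
  set S := ∑ m ∈ h.support, ‖h.coeff m‖ * B' ^ m 1 with hS
  have hS0 : 0 ≤ S := Finset.sum_nonneg fun m _ => by positivity
  refine ⟨max 1 (S / c), fun a b hb hz => ?_⟩
  by_contra hcon
  push Not at hcon
  have ha1 : 1 < ‖a‖ := (le_max_left _ _).trans_lt hcon
  have ha2 : S / c < ‖a‖ := (le_max_right _ _).trans_lt hcon
  rw [div_lt_iff₀ hc0] at ha2
  have hev : MvPolynomial.eval ![a, b] h = ∑ m ∈ h.support, h.coeff m * (a ^ m 0 * b ^ m 1) := by
    rw [MvPolynomial.eval_eq']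
    refine Finset.sum_congr rfl fun m _ => ?_
    rw [Fin.prod_univ_two]
    rfl
  rw [hev, ← Finset.add_sum_erase _ _ hms] at hz
  have hterm : ‖h.coeff ms * (a ^ ms 0 * b ^ ms 1)‖ = c * ‖a‖ ^ D := by
    rw [hms1, pow_zero, mul_one, norm_mul, norm_pow, hmsD]
  have h2 : ‖∑ m ∈ h.support.erase ms, h.coeff m * (a ^ m 0 * b ^ m 1)‖ ≤ S * ‖a‖ ^ (D - 1) := by
    refine (norm_sum_le _ _).trans ?_
    rw [hS, Finset.sum_mul]
    refine (Finset.sum_le_sum fun m hm => ?_).trans (Finset.sum_le_sum_of_subset_of_nonneg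
      (Finset.erase_subset ms h.support) fun m _ _ => by positivity)
    have hm' := Finset.mem_of_mem_erase hm
    have hlt := huniq m hm' (Finset.ne_of_mem_erase hm)
    rw [norm_mul, norm_mul, norm_pow, norm_pow]
    have h3 : ‖a‖ ^ m 0 ≤ ‖a‖ ^ (D - 1) := pow_le_pow_right₀ ha1.le (by omega)
    have h4 : ‖b‖ ^ m 1 ≤ B' ^ m 1 := by
      gcongr
      exact hb.trans (le_max_left _ _)
    calc ‖h.coeff m‖ * (‖a‖ ^ m 0 * ‖b‖ ^ m 1) ≤ ‖h.coeff m‖ * (‖a‖ ^ (D - 1) * B' ^ m 1) := by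
          gcongr
      _ = _ := by ring
  have h5 : ‖h.coeff ms * (a ^ ms 0 * b ^ ms 1)‖ =
      ‖∑ m ∈ h.support.erase ms, h.coeff m * (a ^ m 0 * b ^ m 1)‖ := by
    rw [eq_neg_of_add_eq_zero_left hz, norm_neg]
  rw [← h5, hterm] at h2
  have h6 : D = (D - 1) + 1 := by omega
  have h7 : 0 < ‖a‖ ^ (D - 1) := by positivity
  have h8 : c * ‖a‖ ^ D = (‖a‖ * c) * ‖a‖ ^ (D - 1) := by
    conv_lhs => rw [h6]
    rw [pow_succ]
    ring
  rw [h8] at h2
  have := le_of_mul_le_mul_right h2 h7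
  linarith

end bounded

/-- an orbit which is not bounded tends to infinity -/
theorem tendsto_large {p : ℕ} [Fact p.Prime] {L : Type} [NormedField L] [IsUltrametricDist L]
    [CompleteSpace L] [IsAlgClosed L] [CharP L p] (f : L[X])
    (h2 : 2 ≤ f.natDegree) (hpd : ∀ k, f.natDegree ≠ p ^ k) (hf : Tame p f) (x : L)
    (hx : ∀ M : ℝ, ∃ n, M < ‖orb f x n‖) (B : ℝ) : ∃ n₀, ∀ n, n₀ ≤ n → B < ‖orb f x n‖ := by
  obtain ⟨c, s, M, hc, hM, s0, hs, hF⟩ := normal f h2 hpd hf
  obtain ⟨n₁, hn₁⟩ := escape f f.natDegree (by omega) c s M hc hM s0 hs hF x hx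
  obtain ⟨Z, hZ, hZ'⟩ := hn₁ n₁ le_rfl
  obtain ⟨P1, -, -⟩ := psi_props s M hM s0 hs
  have hcn : 0 < ‖c‖ := norm_pos_iff.2 hc
  obtain ⟨n₂, hn₂⟩ := large_pow ‖Z‖ (hM.trans_lt hZ) f.natDegree h2 (B * ‖c‖)
  refine ⟨n₁ + n₂, fun n hn => ?_⟩
  have h1 := hZ' (n - n₁)
  have h3 : n - n₁ + n₁ = n := by omega
  rw [h3] at h1
  have h4 : M < ‖Z ^ f.natDegree ^ (n - n₁)‖ := by
    rw [norm_pow]
    exact hZ.trans_le (le_self_pow₀ (hM.trans hZ.le) (pow_pos (by omega) _).ne')
  have h5 : ‖c * orb f x n‖ = ‖Z‖ ^ f.natDegree ^ (n - n₁) := by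
    rw [h1, ← norm_pow]
    exact P1 _ h4
  have h6 := hn₂ (n - n₁) (by omega)
  rw [← h5, norm_mul, mul_comm ‖c‖] at h6
  exact lt_of_mul_lt_mul_right h6 hcn.le

/-- the local theorem when only the first orbit is known to be unbounded -/
theorem local_pure {p : ℕ} [Fact p.Prime] {L : Type} [NormedField L] [IsUltrametricDist L]
    [CompleteSpace L] [IsAlgClosed L] [CharP L p] (f g : L[X]) (hd : f.natDegree = g.natDegree)
    (h2 : 2 ≤ f.natDegree) (hpd : ∀ k, f.natDegree ≠ p ^ k) (hf : Tame p f) (hg : Tame p g)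
    (x y : L) (hx : ∀ M : ℝ, ∃ n, M < ‖orb f x n‖)
    (h : MvPolynomial (Fin 2) L) (hp : PureTop h 0) : EP (ret f g x y h) := by
  by_cases hfin : (ret f g x y h).Finite
  · exact EP.of_finite hfin
  have h0 : h ≠ 0 := by
    rintro rfl
    have := hp.1
    simp at this
  refine local_ep f g hd h2 hpd hf hg x y hx (fun B => ?_) h h0
  by_contra hcon
  push Not at hcon
  obtain ⟨C, hC⟩ := pure_bound h hp B
  obtain ⟨n₀, hn₀⟩ := tendsto_large f h2 hpd hf x hx C
  obtain ⟨n, hn, hnn⟩ := (show (ret f g x y h).Infinite from hfin).exists_gt n₀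
  have h1 := hn₀ n hnn.le
  have h3 := hC _ _ (hcon n) hn
  linarith

end Pool.Agent.Helper79.DM
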