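import Pool.Agent.Helper79.DM.Defs

/-!
# Convergent Laurent series at infinity over an ultrametric field
-/

set_option autoImplicit false
set_option linter.unusedSectionVars false

namespace Pool.Agent.Helper79.DM

open Polynomial Finset

/-- `H` is given near infinity by a convergent Laurent series. -/
def Conv {L : Type*} [NormedField L] (H : L → L) : Prop :=
  ∃ (N : ℕ) (e : ℕ → L) (M C : ℝ), 1 ≤ M ∧ (∀ k, ‖e k‖ ≤ C * M ^ k) ∧
    ∀ T : L, M < ‖T‖ → H T = T ^ N * ∑' k, e k * T⁻¹ ^ k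

section

variable {L : Type*} [NormedField L]

theorem bound_nonneg {e : ℕ → L} {M C : ℝ} (h : ∀ k, ‖e k‖ ≤ C * M ^ k) : 0 ≤ C := by
  have := (norm_nonneg _).trans (h 0)
  simpa using this

theorem term_bound {e : ℕ → L} {M C : ℝ} (h : ∀ k, ‖e k‖ ≤ C * M ^ k) (T : L) (k : ℕ) :
    ‖e k * T⁻¹ ^ k‖ ≤ C * (M / ‖T‖) ^ k := by
  rw [norm_mul, norm_pow, norm_inv, div_pow, mul_div_assoc', inv_pow, ← div_eq_mul_inv]
  gcongr
  exact h k

theorem ratio_lt {M : ℝ} (hM : 1 ≤ M) {T : L} (hT : M < ‖T‖) : 0 ≤ M / ‖T‖ ∧ M / ‖T‖ < 1 := by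
  have h0 : 0 < ‖T‖ := by linarith
  exact ⟨by positivity, (div_lt_one h0).2 hT⟩

theorem term_summable_norm {e : ℕ → L} {M C : ℝ} (hM : 1 ≤ M) (h : ∀ k, ‖e k‖ ≤ C * M ^ k)
    {T : L} (hT : M < ‖T‖) : Summable fun k => ‖e k * T⁻¹ ^ k‖ := by
  obtain ⟨h1, h2⟩ := ratio_lt hM hT
  exact Summable.of_nonneg_of_le (fun _ => norm_nonneg _) (fun k => term_bound h T k)
    ((summable_geometric_of_lt_one h1 h2).mul_left C)

variable [CompleteSpace L]

theorem term_summable {e : ℕ → L} {M C : ℝ} (hM : 1 ≤ M) (h : ∀ k, ‖e k‖ ≤ C * M ^ k)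
    {T : L} (hT : M < ‖T‖) : Summable fun k => e k * T⁻¹ ^ k :=
  (term_summable_norm hM h hT).of_norm

theorem Conv.congr {H H' : L → L} (h : Conv H) (R : ℝ) (hR : ∀ T, R < ‖T‖ → H' T = H T) :
    Conv H' := by
  obtain ⟨N, e, M, C, hM, he, hH⟩ := h
  refine ⟨N, e, max M R, C, hM.trans (le_max_left _ _), fun k => (he k).trans ?_, fun T hT => ?_⟩
  · have := bound_nonneg he
    gcongr
    exact le_max_left _ _
  · rw [hR T (lt_of_le_of_lt (le_max_right _ _) hT), hH T (lt_of_le_of_lt (le_max_left _ _) hT)]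

/-- raising the exponent -/
theorem Conv.shift {H : L → L} {N : ℕ} {e : ℕ → L} {M C : ℝ} (hM : 1 ≤ M)
    (he : ∀ k, ‖e k‖ ≤ C * M ^ k) (hH : ∀ T : L, M < ‖T‖ → H T = T ^ N * ∑' k, e k * T⁻¹ ^ k)
    (j : ℕ) : ∃ e' : ℕ → L, (∀ k, ‖e' k‖ ≤ C * M ^ k) ∧
      ∀ T : L, M < ‖T‖ → H T = T ^ (N + j) * ∑' k, e' k * T⁻¹ ^ k := by
  have hC := bound_nonneg he
  refine ⟨fun k => if k < j then 0 else e (k - j), fun k => ?_, fun T hT => ?_⟩
  · by_cases hk : k < j
    · simp only [hk, if_true, norm_zero]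
      positivity
    · simp only [hk, if_false]
      refine (he _).trans (mul_le_mul_of_nonneg_left ?_ hC)
      exact pow_le_pow_right₀ hM (Nat.sub_le _ _)
  · have h0 : T ≠ 0 := by
      rintro rfl
      rw [norm_zero] at hT
      linarith
    have hs : Summable fun k => (if k < j then 0 else e (k - j)) * T⁻¹ ^ k := by
      rw [← summable_nat_add_iff j]
      refine ((term_summable hM he hT).mul_right (T⁻¹ ^ j)).congr fun k => ?_
      simp only [not_lt.2 (Nat.le_add_left j k), if_false, Nat.add_sub_cancel, pow_add]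
      ring
    rw [hH T hT, ← hs.sum_add_tsum_nat_add j]
    have h1 : ∑ i ∈ range j, (if i < j then 0 else e (i - j)) * T⁻¹ ^ i = 0 := by
      refine Finset.sum_eq_zero fun i hi => ?_
      simp [Finset.mem_range.1 hi]
    rw [h1, zero_add]
    have h2 : ∀ k, (if k + j < j then 0 else e (k + j - j)) * T⁻¹ ^ (k + j) =
        (e k * T⁻¹ ^ k) * T⁻¹ ^ j := by
      intro k
      simp only [not_lt.2 (Nat.le_add_left j k), if_false, Nat.add_sub_cancel, pow_add]
      ring
    simp only [h2]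
    rw [tsum_mul_right, pow_add, inv_pow]
    field_simp

theorem Conv.const (a : L) : Conv fun _ : L => a := by
  refine ⟨0, fun k => if k = 0 then a else 0, 1, ‖a‖, le_rfl, fun k => ?_, fun T _ => ?_⟩
  · by_cases hk : k = 0
    · simp [hk]
    · simp [hk]
  · rw [tsum_eq_single 0]
    · simp
    · intro k hk
      simp [hk]

theorem Conv.add [IsUltrametricDist L] {H H' : L → L} (h : Conv H) (h' : Conv H') :
    Conv fun T => H T + H' T := by
  obtain ⟨N, e, M, C, hM, he, hH⟩ := h.congr (H' := H) 0 (fun _ _ => rfl)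
  obtain ⟨N', e', M', C', hM', he', hH'⟩ := h'.congr (H' := H') 0 (fun _ _ => rfl)
  have hC := bound_nonneg he
  have hC' := bound_nonneg he'
  set m := max M M' with hm
  have hm1 : 1 ≤ m := hM.trans (le_max_left _ _)
  have e1 : ∀ k, ‖e k‖ ≤ C * m ^ k := fun k => (he k).trans (by gcongr; exact le_max_left _ _)
  have e1' : ∀ k, ‖e' k‖ ≤ C' * m ^ k :=
    fun k => (he' k).trans (by gcongr; exact le_max_right _ _)
  obtain ⟨a, ha, ha'⟩ := Conv.shift (H := H) hm1 e1
    (fun T hT => hH T (lt_of_le_of_lt (le_max_left _ _) hT)) N'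
  obtain ⟨b, hb, hb'⟩ := Conv.shift (H := H') hm1 e1'
    (fun T hT => hH' T (lt_of_le_of_lt (le_max_right _ _) hT)) N
  refine ⟨N + N', fun k => a k + b k, m, max C C', hm1, fun k => ?_, fun T hT => ?_⟩
  · refine (IsUltrametricDist.norm_add_le_max _ _).trans (max_le ((ha k).trans ?_)
      ((hb k).trans ?_))
    · gcongr
      exact le_max_left _ _
    · gcongr
      exact le_max_right _ _
  · show H T + H' T = _
    rw [ha' T hT, hb' T hT, add_comm N' N, ← mul_add,
      ← (term_summable hm1 ha hT).tsum_add (term_summable hm1 hb hT)]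
    simp only [add_mul]

theorem Conv.mul [IsUltrametricDist L] {H H' : L → L} (h : Conv H) (h' : Conv H') :
    Conv fun T => H T * H' T := by
  obtain ⟨N, e, M, C, hM, he, hH⟩ := h
  obtain ⟨N', e', M', C', hM', he', hH'⟩ := h'
  have hC := bound_nonneg he
  have hC' := bound_nonneg he'
  set m := max M M' with hm
  have hm1 : 1 ≤ m := hM.trans (le_max_left _ _)
  have e1 : ∀ k, ‖e k‖ ≤ C * m ^ k := fun k => (he k).trans (by gcongr; exact le_max_left _ _)
  have e1' : ∀ k, ‖e' k‖ ≤ C' * m ^ k :=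
    fun k => (he' k).trans (by gcongr; exact le_max_right _ _)
  refine ⟨N + N', fun k => ∑ kl ∈ antidiagonal k, e kl.1 * e' kl.2, m, C * C', hm1, fun k => ?_,
    fun T hT => ?_⟩
  · refine IsUltrametricDist.norm_sum_le_of_forall_le_of_nonneg (by positivity) fun kl hkl => ?_
    rw [norm_mul]
    calc ‖e kl.1‖ * ‖e' kl.2‖ ≤ (C * m ^ kl.1) * (C' * m ^ kl.2) := by
          gcongr
          · exact e1 _
          · exact e1' _
      _ = C * C' * m ^ k := by
          rw [← mem_antidiagonal.1 hkl, pow_add]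
          ring
  · show H T * H' T = _
    rw [hH T (lt_of_le_of_lt (le_max_left _ _) hT), hH' T (lt_of_le_of_lt (le_max_right _ _) hT),
      mul_mul_mul_comm, ← pow_add,
      tsum_mul_tsum_eq_tsum_sum_antidiagonal_of_summable_norm (term_summable_norm hm1 e1 hT)
        (term_summable_norm hm1 e1' hT)]
    congr 1
    refine tsum_congr fun k => ?_
    rw [Finset.sum_mul]
    refine Finset.sum_congr rfl fun kl hkl => ?_
    rw [← mem_antidiagonal.1 hkl, pow_add]
    ring

theorem Conv.pow [IsUltrametricDist L] {H : L → L} (h : Conv H) (n : ℕ) :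
    Conv fun T => H T ^ n := by
  induction n with
  | zero => simpa using Conv.const (1 : L)
  | succ n ih => simpa [pow_succ] using ih.mul h

theorem Conv.sum [IsUltrametricDist L] {ι : Type*} (s : Finset ι) {H : ι → L → L}
    (h : ∀ i ∈ s, Conv (H i)) : Conv fun T => ∑ i ∈ s, H i T := by
  classical
  induction s using Finset.induction_on with
  | empty => simpa using Conv.const (0 : L)
  | insert a s ha ih =>
    have h1 := (h a (mem_insert_self _ _)).add (ih fun i hi => h i (mem_insert_of_mem hi))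
    refine h1.congr 0 fun T _ => ?_
    rw [Finset.sum_insert ha]

/-- a polynomial in a convergent function -/
theorem Conv.eval [IsUltrametricDist L] {H : L → L} (h : Conv H) (P : L[X]) :
    Conv fun T => P.eval (H T) := by
  have h1 : Conv fun T => ∑ i ∈ P.support, P.coeff i * H T ^ i :=
    Conv.sum _ fun i _ => (Conv.const _).mul (h.pow i)
  refine h1.congr 0 fun T _ => ?_
  rw [Polynomial.eval_eq_sum, Polynomial.sum_def]

/-- the basic series, at `w T ^ a` -/
theorem Conv.psi [IsUltrametricDist L] {c : ℕ → L} {M : ℝ} (hM : 1 ≤ M)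
    (hc : ∀ k, ‖c k‖ ≤ M ^ k) (w : L) (hw : ‖w‖ = 1) (a : ℕ) (ha : 0 < a) :
    Conv fun T => (w * T ^ a) * ∑' k, c k * (w * T ^ a)⁻¹ ^ k := by
  refine ⟨a, fun n => w * if a ∣ n then c (n / a) * w⁻¹ ^ (n / a) else 0, M, 1, hM, fun k => ?_,
    fun T hT => ?_⟩
  · by_cases hk : a ∣ k
    · simp only [hk, if_true, norm_mul, norm_pow, norm_inv, hw, inv_one, one_pow, mul_one, one_mul]
      exact (hc _).trans (pow_le_pow_right₀ hM (Nat.div_le_self _ _))
    · simp only [hk, if_false, mul_zero, norm_zero, one_mul]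
      positivity
  · show (w * T ^ a) * ∑' k, c k * (w * T ^ a)⁻¹ ^ k = _
    have h1 : ∑' n, (w * if a ∣ n then c (n / a) * w⁻¹ ^ (n / a) else 0) * T⁻¹ ^ n =
        w * ∑' k, c k * (w * T ^ a)⁻¹ ^ k := by
      rw [← tsum_mul_left]
      have hinj : Function.Injective fun k : ℕ => a * k := fun x y hxy =>
        Nat.eq_of_mul_eq_mul_left ha hxy
      rw [← hinj.tsum_eq]
      · refine tsum_congr fun k => ?_
        simp only [dvd_mul_right, if_true, Nat.mul_div_cancel_left k ha]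
        rw [mul_inv, mul_pow, pow_mul, inv_pow T a]
        ring
      · intro n hn
        by_cases hd : a ∣ n
        · obtain ⟨k, rfl⟩ := hd
          exact ⟨k, rfl⟩
        · exfalso
          apply hn
          simp [hd]
    rw [h1]
    ring

theorem Conv.dichotomy [IsUltrametricDist L] {H : L → L} (h : Conv H) :
    (∃ R : ℝ, ∀ T : L, R < ‖T‖ → H T = 0) ∨
    ∃ (C R : ℝ) (m : ℤ), 0 < C ∧ ∀ T : L, R < ‖T‖ → ‖H T‖ = C * ‖T‖ ^ m := by
  classical
  obtain ⟨N, e, M, C, hM, he, hH⟩ := h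
  have hC := bound_nonneg he
  by_cases h0 : ∀ k, e k = 0
  · left
    refine ⟨M, fun T hT => ?_⟩
    rw [hH T hT]
    simp [h0]
  · right
    push_neg at h0
    set j := Nat.find h0 with hj
    have hej : e j ≠ 0 := Nat.find_spec h0
    have hlt : ∀ k < j, e k = 0 := fun k hk => by
      by_contra hne
      exact Nat.find_min h0 hk hne
    have hpos : 0 < ‖e j‖ := norm_pos_iff.2 hej
    refine ⟨‖e j‖, max M ((C * M ^ (j + 1)) / ‖e j‖), (N : ℤ) - j, hpos, fun T hT => ?_⟩
    have hT1 : M < ‖T‖ := lt_of_le_of_lt (le_max_left _ _) hT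
    have hT2 : (C * M ^ (j + 1)) / ‖e j‖ < ‖T‖ := lt_of_le_of_lt (le_max_right _ _) hT
    have hT0 : 0 < ‖T‖ := by linarith
    have hTne : T ≠ 0 := norm_pos_iff.1 hT0
    have hs := term_summable hM he hT1
    have h1 : ∑' k, e k * T⁻¹ ^ k = e j * T⁻¹ ^ j + ∑' k, e (k + (j + 1)) * T⁻¹ ^ (k + (j + 1)) := by
      rw [← hs.sum_add_tsum_nat_add (j + 1), Finset.sum_range_succ, Finset.sum_eq_zero, zero_add]
      intro k hk
      rw [hlt k (mem_range.1 hk), zero_mul]
    have h2 : ‖∑' k, e (k + (j + 1)) * T⁻¹ ^ (k + (j + 1))‖ ≤ C * (M / ‖T‖) ^ (j + 1) := by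
      refine IsUltrametricDist.norm_tsum_le_of_forall_le_of_nonneg (by positivity) fun k => ?_
      refine (term_bound he T _).trans ?_
      obtain ⟨r1, r2⟩ := ratio_lt hM hT1
      exact mul_le_mul_of_nonneg_left (pow_le_pow_of_le_one r1 r2.le (Nat.le_add_left _ _)) hC
    have h3 : C * (M / ‖T‖) ^ (j + 1) < ‖e j * T⁻¹ ^ j‖ := by
      rw [norm_mul, norm_pow, norm_inv, div_pow, mul_div_assoc', inv_pow, div_lt_iff₀ (by positivity)]
      rw [div_lt_iff₀ hpos] at hT2
      calc C * M ^ (j + 1) < ‖T‖ * ‖e j‖ := hT2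
        _ = ‖e j‖ * (‖T‖ ^ j)⁻¹ * ‖T‖ ^ (j + 1) := by
            rw [pow_succ]
            field_simp
    have h4 : ‖∑' k, e k * T⁻¹ ^ k‖ = ‖e j * T⁻¹ ^ j‖ := by
      rw [h1]
      refine IsUltrametricDist.norm_add_eq_max_of_norm_ne_norm ?_ |>.trans ?_
      · exact ne_of_gt (lt_of_le_of_lt h2 h3)
      · exact max_eq_left (h2.trans h3.le)
    rw [hH T hT1, norm_mul, h4, norm_mul, norm_pow, norm_pow, norm_inv, zpow_sub₀ hT0.ne',
      zpow_natCast, zpow_natCast, inv_pow]
    ring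

end

end Pool.Agent.Helper79.DM
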