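import Mathlib

/-!
# Return sets of split polynomial maps in characteristic `p`: definitions
-/

set_option autoImplicit false

namespace Pool.Agent.Helper79.DM

open Polynomial

/-- Eventually periodic sets of natural numbers. -/
def EP (S : Set ℕ) : Prop := ∃ N P : ℕ, 0 < P ∧ ∀ n, N ≤ n → (n ∈ S ↔ n + P ∈ S)

/-- The `n`-th point of the orbit of `x` under `f`. -/
noncomputable def orb {K : Type*} [Field K] (f : K[X]) (x : K) (n : ℕ) : K :=
  (fun z => Polynomial.eval z f)^[n] x

/-- The return set of `(x, y)` to the curve `h = 0` under the map `(f, g)`. -/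
def ret {K : Type*} [Field K] (f g : K[X]) (x y : K) (h : MvPolynomial (Fin 2) K) : Set ℕ :=
  {n | MvPolynomial.eval ![orb f x n, orb g y n] h = 0}

/-- The only monomial of `h` of maximal degree in the variable `i` is a pure power of this
variable (and `i` occurs in `h`). -/
def PureTop {K : Type*} [Field K] (h : MvPolynomial (Fin 2) K) (i : Fin 2) : Prop :=
  0 < h.degreeOf i ∧ ∀ m ∈ h.support, m i = h.degreeOf i → ∀ j, j ≠ i → m j = 0

/-- `f` is a polynomial in `X ^ q` where `q` is the largest power of `p` dividing the degree of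
`f`. Every polynomial of degree prime to `p` has this property (`q = 1`). -/
def Tame {K : Type*} [Field K] (p : ℕ) (f : K[X]) : Prop :=
  ∃ (e : ℕ) (f₁ : K[X]), f = Polynomial.expand K (p ^ e) f₁ ∧ ¬ p ∣ f₁.natDegree

end Pool.Agent.Helper79.DM
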