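import Pool.Agent.Helper79.DM.D

/-!
# The local theorem: tools
-/

set_option autoImplicit false
set_option linter.unusedSectionVars false

namespace Pool.Agent.Helper79.DM

open Polynomial Finset

section

variable {L : Type*} [NormedField L] [IsUltrametricDist L]

/-- In a vanishing finite sum two terms of maximal norm have the same norm. -/
theorem two_max {ι : Type*} (s : Finset ι) (t : ι → L) (h0 : ∑ i ∈ s, t i = 0) {i₀ : ι}
    (hi₀ : i₀ ∈ s) (hne : t i₀ ≠ 0) :
    ∃ i ∈ s, ∃ j ∈ s, i ≠ j ∧ t i ≠ 0 ∧ t j ≠ 0 ∧ ‖t i‖ = ‖t j‖ := by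
  classical
  obtain ⟨i, hi, hmax⟩ := s.exists_max_image (fun i => ‖t i‖) ⟨i₀, hi₀⟩
  have hti : 0 < ‖t i‖ := (norm_pos_iff.2 hne).trans_le (hmax i₀ hi₀)
  by_contra hcon
  push Not at hcon
  have hlt : ∀ j ∈ s, j ≠ i → ‖t j‖ < ‖t i‖ := by
    intro j hj hji
    refine lt_of_le_of_ne (hmax j hj) fun he => ?_
    have hj0 : t j ≠ 0 := by
      rw [← norm_pos_iff, he]
      exact hti
    exact hcon i hi j hj hji.symm (norm_pos_iff.1 hti) hj0 he.symm
  have h1 : t i + ∑ j ∈ s.erase i, t j = 0 := by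
    rw [Finset.add_sum_erase s t hi, h0]
  have h2 : ‖∑ j ∈ s.erase i, t j‖ < ‖t i‖ := by
    rcases (s.erase i).eq_empty_or_nonempty with he | he
    · rw [he, Finset.sum_empty, norm_zero]
      exact hti
    · obtain ⟨j, hj, hj'⟩ := IsUltrametricDist.exists_norm_finset_sum_le_of_nonempty he t
      exact hj'.trans_lt (hlt j (mem_of_mem_erase hj) (ne_of_mem_erase hj))
  have h3 : ‖t i‖ = ‖∑ j ∈ s.erase i, t j‖ := by
    rw [eq_neg_of_add_eq_zero_left h1, norm_neg]
  linarith

/-- powers of close elements -/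
theorem pow_sub_le (x X : L) (δ : ℝ) (hδ : ‖x - X‖ ≤ δ) (hx : ‖x‖ = ‖X‖) (i : ℕ) :
    ‖x ^ (i + 1) - X ^ (i + 1)‖ ≤ δ * ‖X‖ ^ i := by
  have h1 : x ^ (i + 1) - X ^ (i + 1) =
      (∑ j ∈ range (i + 1), x ^ j * X ^ (i - j)) * (x - X) := by
    rw [← Commute.geom_sum₂_mul (Commute.all x X)]
    simp
  rw [h1, norm_mul, mul_comm]
  refine mul_le_mul hδ ?_ (norm_nonneg _) ((norm_nonneg _).trans hδ)
  refine IsUltrametricDist.norm_sum_le_of_forall_le_of_nonneg (by positivity) fun j hj => ?_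
  rw [norm_mul, norm_pow, norm_pow, hx, ← pow_add]
  have : j + (i - j) = i := by
    have := Finset.mem_range.1 hj
    omega
  rw [this]

/-- a product of two powers -/
theorem mono_sub_le (x X y Y : L) (M τ : ℝ) (hM : 0 ≤ M) (hτ : 1 ≤ τ) (a b : ℕ) (ha : 0 < a)
    (hb : 0 < b) (hX : ‖X‖ = τ ^ a) (hY : ‖Y‖ = τ ^ b) (hx : ‖x - X‖ ≤ M) (hy : ‖y - Y‖ ≤ M)
    (hx' : ‖x‖ = ‖X‖) (hy' : ‖y‖ = ‖Y‖) (i j : ℕ) :
    τ * ‖x ^ i * y ^ j - X ^ i * Y ^ j‖ ≤ M * τ ^ (a * i + b * j) := by
  have hτ0 : 0 < τ := by linarith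
  have key : ∀ (z Z : L) (c : ℕ), 0 < c → ‖Z‖ = τ ^ c → ‖z - Z‖ ≤ M → ‖z‖ = ‖Z‖ → ∀ k : ℕ,
      τ * ‖z ^ k - Z ^ k‖ ≤ M * τ ^ (c * k) := by
    intro z Z c hc hZ hz hz' k
    rcases k with _ | k
    · simp only [pow_zero, sub_self, norm_zero, mul_zero, mul_one]
      exact hM
    · have h1 := pow_sub_le z Z M hz hz' k
      calc τ * ‖z ^ (k + 1) - Z ^ (k + 1)‖ ≤ τ * (M * ‖Z‖ ^ k) := by gcongr
        _ = M * τ ^ (c * k + 1) := by
            rw [hZ, ← pow_mul, pow_succ]
            ring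
        _ ≤ M * τ ^ (c * (k + 1)) := by
            refine mul_le_mul_of_nonneg_left (pow_le_pow_right₀ hτ ?_) hM
            rw [mul_add, mul_one]
            omega
  have h1 : x ^ i * y ^ j - X ^ i * Y ^ j = (x ^ i - X ^ i) * y ^ j + X ^ i * (y ^ j - Y ^ j) := by
    ring
  rw [h1]
  have h2 : τ * ‖(x ^ i - X ^ i) * y ^ j‖ ≤ M * τ ^ (a * i + b * j) := by
    rw [norm_mul, norm_pow, hy', hY, ← pow_mul, ← mul_assoc, pow_add, ← mul_assoc]
    exact mul_le_mul_of_nonneg_right (key x X a ha hX hx hx' i) (by positivity)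
  have h3 : τ * ‖X ^ i * (y ^ j - Y ^ j)‖ ≤ M * τ ^ (a * i + b * j) := by
    rw [norm_mul, norm_pow, hX, ← pow_mul, pow_add]
    calc τ * (τ ^ (a * i) * ‖y ^ j - Y ^ j‖) = τ ^ (a * i) * (τ * ‖y ^ j - Y ^ j‖) := by ring
      _ ≤ τ ^ (a * i) * (M * τ ^ (b * j)) := by
          refine mul_le_mul_of_nonneg_left (key y Y b hb hY hy hy' j) (by positivity)
      _ = M * (τ ^ (a * i) * τ ^ (b * j)) := by ring
  have h4 := IsUltrametricDist.norm_add_le_max ((x ^ i - X ^ i) * y ^ j) (X ^ i * (y ^ j - Y ^ j))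
  rcases le_max_iff.1 h4 with h5 | h5
  · exact (mul_le_mul_of_nonneg_left h5 hτ0.le).trans h2
  · exact (mul_le_mul_of_nonneg_left h5 hτ0.le).trans h3

end

/-! ## Taylor expansion in the second variable -/

section

variable {L : Type*} [Field L]

theorem eval_eq_sum (h : MvPolynomial (Fin 2) L) (a b : L) :
    MvPolynomial.eval ![a, b] h = ∑ m ∈ h.support, h.coeff m * (a ^ (m 0) * b ^ (m 1)) := by
  rw [MvPolynomial.eval_eq']
  refine Finset.sum_congr rfl fun m _ => ?_
  congr 1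
  rw [Fin.prod_univ_two]
  simp

/-- Hasse derivatives in the second variable -/
def hasse (h : MvPolynomial (Fin 2) L) (l : ℕ) (a b : L) : L :=
  ∑ m ∈ h.support, h.coeff m * a ^ (m 0) * ((m 1).choose l * b ^ (m 1 - l))

theorem taylor (h : MvPolynomial (Fin 2) L) (a b δ : L) :
    MvPolynomial.eval ![a, b + δ] h =
      ∑ l ∈ range (h.degreeOf 1 + 1), hasse h l a b * δ ^ l := by
  rw [eval_eq_sum]
  simp only [hasse, Finset.sum_mul]
  rw [Finset.sum_comm]
  refine Finset.sum_congr rfl fun m hm => ?_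
  have hle : m 1 ≤ h.degreeOf 1 := MvPolynomial.monomial_le_degreeOf 1 hm
  rw [add_comm b δ, add_pow, ← mul_assoc, Finset.mul_sum]
  rw [Finset.sum_subset (Finset.range_subset_range.2 (Nat.succ_le_succ hle))]
  · refine Finset.sum_congr rfl fun l _ => ?_
    ring
  · intro l _ hl
    have : m 1 < l := by
      simpa using hl
    rw [Nat.choose_eq_zero_of_lt this]
    simp

theorem hasse_zero (h : MvPolynomial (Fin 2) L) (a b : L) :
    hasse h 0 a b = MvPolynomial.eval ![a, b] h := by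
  rw [eval_eq_sum]
  refine Finset.sum_congr rfl fun m _ => ?_
  simp only [Nat.choose_zero_right, Nat.cast_one, one_mul, Nat.sub_zero]
  ring

/-- the top coefficient as a polynomial in the first variable -/
noncomputable def topP (h : MvPolynomial (Fin 2) L) : L[X] :=
  ∑ m ∈ h.support with m 1 = h.degreeOf 1, Polynomial.monomial (m 0) (h.coeff m)

theorem hasse_top (h : MvPolynomial (Fin 2) L) (a b : L) :
    hasse h (h.degreeOf 1) a b = (topP h).eval a := by
  rw [hasse, topP, Polynomial.eval_finset_sum, Finset.sum_filter]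
  refine Finset.sum_congr rfl fun m hm => ?_
  have hle : m 1 ≤ h.degreeOf 1 := MvPolynomial.monomial_le_degreeOf 1 hm
  by_cases h1 : m 1 = h.degreeOf 1
  · simp [h1]
  · have h2 : m 1 < h.degreeOf 1 := lt_of_le_of_ne hle h1
    simp [Nat.choose_eq_zero_of_lt h2, h1]

theorem topP_ne_zero (h : MvPolynomial (Fin 2) L) (h0 : h ≠ 0) : topP h ≠ 0 := by
  classical
  have hne : h.support.Nonempty := by
    rw [Finset.nonempty_iff_ne_empty]
    exact fun he => h0 (MvPolynomial.support_eq_empty.1 he)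
  obtain ⟨m, hm, hmax⟩ := h.support.exists_max_image (fun m => m 1) hne
  have hdeg : m 1 = h.degreeOf 1 := by
    refine le_antisymm (MvPolynomial.monomial_le_degreeOf 1 hm) ?_
    rw [MvPolynomial.degreeOf_eq_sup]
    exact Finset.sup_le hmax
  intro h1
  have h2 : (topP h).coeff (m 0) = h.coeff m := by
    rw [topP, Polynomial.finset_sum_coeff]
    rw [Finset.sum_eq_single m]
    · simp
    · intro m' hm' hne'
      rw [Polynomial.coeff_monomial]
      rw [if_neg]
      intro he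
      apply hne'
      have hm1 : m' 1 = m 1 := by
        rw [hdeg]
        exact (Finset.mem_filter.1 hm').2
      ext i
      fin_cases i
      · exact he
      · exact hm1
    · intro hcon
      exact absurd (Finset.mem_filter.2 ⟨hm, hdeg⟩) hcon
  rw [h1, Polynomial.coeff_zero] at h2
  exact (MvPolynomial.mem_support_iff.1 hm) h2.symm

end

section

variable {L : Type*} [NormedField L]

/-- a nonzero polynomial has no zeros of large norm -/
theorem eval_ne_of_large (P : L[X]) (hP : P ≠ 0) : ∃ R : ℝ, ∀ a : L, R < ‖a‖ → P.eval a ≠ 0 := by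
  classical
  have hf : (P.roots.toFinset : Finset L).Nonempty ∨ P.roots.toFinset = ∅ := by
    rcases P.roots.toFinset.eq_empty_or_nonempty with h | h
    · exact Or.inr h
    · exact Or.inl h
  rcases hf with h | h
  · obtain ⟨r, hr, hmax⟩ := P.roots.toFinset.exists_max_image (fun r => ‖r‖) h
    refine ⟨‖r‖, fun a ha h1 => ?_⟩
    have : a ∈ P.roots.toFinset := by
      rw [Multiset.mem_toFinset, Polynomial.mem_roots hP]
      exact h1
    exact absurd (hmax a this) (not_le.2 ha)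
  · refine ⟨0, fun a _ h1 => ?_⟩
    have : a ∈ P.roots.toFinset := by
      rw [Multiset.mem_toFinset, Polynomial.mem_roots hP]
      exact h1
    rw [h] at this
    exact absurd this (Finset.notMem_empty _)

theorem Conv.hasse [IsUltrametricDist L] [CompleteSpace L] (h : MvPolynomial (Fin 2) L) (l : ℕ)
    {A B : L → L} (hA : Conv A) (hB : Conv B) : Conv fun T => hasse h l (A T) (B T) := by
  have h1 : Conv fun T => ∑ m ∈ h.support, h.coeff m * A T ^ (m 0) *
      ((m 1).choose l * B T ^ (m 1 - l)) :=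
    Conv.sum _ fun m _ => ((Conv.const _).mul (hA.pow _)).mul ((Conv.const _).mul (hB.pow _))
  exact h1

end

end Pool.Agent.Helper79.DM
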