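import Pool.Agent.Helper79.DM.F1

/-!
# The local theorem: preparations
-/

set_option autoImplicit false
set_option linter.unusedSectionVars false

namespace Pool.Agent.Helper79.DM

open Polynomial Finset

theorem pigeon {ι : Type*} (F : Finset ι) (S : Set ℕ) (hS : S.Infinite) (P : ℕ → ι → Prop)
    (h : ∀ n ∈ S, ∃ i ∈ F, P n i) : ∃ i ∈ F, {n | n ∈ S ∧ P n i}.Infinite := by
  by_contra hcon
  push Not at hcon
  apply hS
  have h1 : (⋃ i ∈ F, {n | n ∈ S ∧ P n i}).Finite :=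
    Set.Finite.biUnion F.finite_toSet fun i hi => hcon i hi
  refine h1.subset fun n hn => ?_
  obtain ⟨i, hi, hP⟩ := h n hn
  exact Set.mem_biUnion (Finset.mem_coe.2 hi) ⟨hn, hP⟩

theorem large_pow (τ : ℝ) (hτ : 1 < τ) (d : ℕ) (hd : 2 ≤ d) (R : ℝ) :
    ∃ n₀, ∀ n, n₀ ≤ n → R < τ ^ d ^ n := by
  obtain ⟨n₀, hn₀⟩ := pow_unbounded_of_one_lt R hτ
  refine ⟨n₀, fun n hn => hn₀.trans_le ?_⟩
  exact pow_le_pow_right₀ hτ.le (hn.trans (Nat.lt_pow_self (by omega)).le)

section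

variable {L : Type*} [NormedField L]

/-- The Boettcher series. -/
noncomputable def psi (c : ℕ → L) (Z : L) : L := Z * ∑' k, c k * Z⁻¹ ^ k

theorem psi_sub_le [IsUltrametricDist L] [CompleteSpace L] (c : ℕ → L) (M : ℝ) (hM : 1 ≤ M)
    (h0 : c 0 = 1) (hc : ∀ k, ‖c k‖ ≤ M ^ k) (Z : L) (hZ : M < ‖Z‖) : ‖psi c Z - Z‖ ≤ M := by
  have hc' : ∀ k, ‖c k‖ ≤ 1 * M ^ k := fun k => by simpa using hc k
  have hs := term_summable hM hc' hZ
  have hZ0 : 0 < ‖Z‖ := by linarith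
  have h1 : psi c Z - Z = Z * ∑' k, c (k + 1) * Z⁻¹ ^ (k + 1) := by
    rw [psi, ← hs.sum_add_tsum_nat_add 1]
    simp only [range_one, sum_singleton, h0, pow_zero, mul_one]
    ring
  rw [h1, norm_mul]
  have h2 : ‖∑' k, c (k + 1) * Z⁻¹ ^ (k + 1)‖ ≤ M / ‖Z‖ := by
    obtain ⟨r1, r2⟩ := ratio_lt hM hZ
    refine IsUltrametricDist.norm_tsum_le_of_forall_le_of_nonneg r1 fun k => ?_
    refine (term_bound hc' Z _).trans ?_
    rw [one_mul, pow_succ]
    calc (M / ‖Z‖) ^ k * (M / ‖Z‖) ≤ 1 * (M / ‖Z‖) :=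
          mul_le_mul_of_nonneg_right (pow_le_one₀ r1 r2.le) r1
      _ = M / ‖Z‖ := one_mul _
  calc ‖Z‖ * ‖∑' k, c (k + 1) * Z⁻¹ ^ (k + 1)‖ ≤ ‖Z‖ * (M / ‖Z‖) := by gcongr
    _ = M := by field_simp

/-- two maximal monomials along the orbit give a relation between the two speeds -/
theorem ratio [IsUltrametricDist L] (h : MvPolynomial (Fin 2) L) (h0 : h ≠ 0) (X Y : ℝ)
    (hX : 1 < X) (hY : 1 < Y) (d : ℕ) (hd : 2 ≤ d) (x y : ℕ → L) (S : Set ℕ) (hS : S.Infinite)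
    (hx : ∀ n, ‖x n‖ = X ^ d ^ n) (hy : ∀ n, ‖y n‖ = Y ^ d ^ n)
    (hh : ∀ n ∈ S, MvPolynomial.eval ![x n, y n] h = 0) :
    ∃ a b : ℕ, 0 < a ∧ 0 < b ∧ Y ^ a = X ^ b := by
  classical
  have hne : h.support.Nonempty := by
    rw [Finset.nonempty_iff_ne_empty]
    exact fun he => h0 (MvPolynomial.support_eq_empty.1 he)
  obtain ⟨m₀, hm₀⟩ := hne
  have hx0 : ∀ n, x n ≠ 0 := fun n => by
    rw [← norm_pos_iff, hx]
    positivity
  have hy0 : ∀ n, y n ≠ 0 := fun n => by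
    rw [← norm_pos_iff, hy]
    positivity
  have key : ∀ n ∈ S, ∃ q ∈ h.support ×ˢ h.support, q.1 ≠ q.2 ∧
      ‖h.coeff q.1 * (x n ^ (q.1 0) * y n ^ (q.1 1))‖ =
        ‖h.coeff q.2 * (x n ^ (q.2 0) * y n ^ (q.2 1))‖ := by
    intro n hn
    have h1 := hh n hn
    rw [eval_eq_sum] at h1
    obtain ⟨i, hi, j, hj, hij, -, -, he⟩ := two_max _ _ h1 hm₀
      (mul_ne_zero (MvPolynomial.mem_support_iff.1 hm₀)
        (mul_ne_zero (pow_ne_zero _ (hx0 n)) (pow_ne_zero _ (hy0 n))))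
    exact ⟨(i, j), Finset.mem_product.2 ⟨hi, hj⟩, hij, he⟩
  obtain ⟨⟨m, m'⟩, hq, hinf⟩ := pigeon _ S hS _ key
  obtain ⟨n, hn⟩ := hinf.nonempty
  obtain ⟨n', hn', hnn'⟩ := hinf.exists_gt n
  obtain ⟨-, hmm, e1⟩ := hn
  obtain ⟨-, -, e2⟩ := hn'
  have hm := (Finset.mem_product.1 hq).1
  have hm' := (Finset.mem_product.1 hq).2
  set cm := ‖h.coeff m‖ with hcm
  set cm' := ‖h.coeff m'‖ with hcm'
  have hcm0 : 0 < cm := norm_pos_iff.2 (MvPolynomial.mem_support_iff.1 hm)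
  have hcm0' : 0 < cm' := norm_pos_iff.2 (MvPolynomial.mem_support_iff.1 hm')
  have hX0 : 0 < X := by linarith
  have hY0 : 0 < Y := by linarith
  have lg : ∀ n : ℕ, ‖h.coeff m * (x n ^ (m 0) * y n ^ (m 1))‖ =
      ‖h.coeff m' * (x n ^ (m' 0) * y n ^ (m' 1))‖ →
      Real.log cm + (d : ℝ) ^ n * ((m 0 : ℝ) * Real.log X + (m 1 : ℝ) * Real.log Y) =
      Real.log cm' + (d : ℝ) ^ n * ((m' 0 : ℝ) * Real.log X + (m' 1 : ℝ) * Real.log Y) := by
    intro n he
    have key2 : ∀ (c : ℝ) (i j : ℕ), 0 < c → Real.log (c * ((X ^ d ^ n) ^ i * (Y ^ d ^ n) ^ j)) =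
        Real.log c + (d : ℝ) ^ n * ((i : ℝ) * Real.log X + (j : ℝ) * Real.log Y) := by
      intro c i j hc
      rw [Real.log_mul hc.ne' (by positivity), Real.log_mul (by positivity) (by positivity),
        Real.log_pow, Real.log_pow, Real.log_pow, Real.log_pow]
      push_cast
      ring
    rw [norm_mul, norm_mul, norm_mul, norm_mul, norm_pow, norm_pow, norm_pow, norm_pow, hx, hy]
      at he
    have := congrArg Real.log he
    rw [key2 _ _ _ hcm0, key2 _ _ _ hcm0'] at this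
    exact this
  have l1 := lg n e1
  have l2 := lg n' e2
  set α := Real.log X with hα
  set β := Real.log Y with hβ
  have hα0 : 0 < α := Real.log_pos hX
  have hβ0 : 0 < β := Real.log_pos hY
  have hdn : (d : ℝ) ^ n < (d : ℝ) ^ n' := by
    have : (1 : ℝ) < d := by exact_mod_cast (by omega : 1 < d)
    exact pow_lt_pow_right₀ this hnn'
  have hE : ((m 0 : ℝ) * α + (m 1 : ℝ) * β) = ((m' 0 : ℝ) * α + (m' 1 : ℝ) * β) := by
    have h3 : ((d : ℝ) ^ n' - (d : ℝ) ^ n) *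
        (((m 0 : ℝ) * α + (m 1 : ℝ) * β) - ((m' 0 : ℝ) * α + (m' 1 : ℝ) * β)) = 0 := by
      linarith
    rcases mul_eq_zero.1 h3 with h4 | h4
    · linarith
    · linarith
  -- conclude
  have concl : ∀ u v : Fin 2 →₀ ℕ, ((u 0 : ℝ) * α + (u 1 : ℝ) * β) =
      ((v 0 : ℝ) * α + (v 1 : ℝ) * β) → u 0 < v 0 → ∃ a b : ℕ, 0 < a ∧ 0 < b ∧ Y ^ a = X ^ b := by
    intro u v huv hlt
    have hlt' : (u 0 : ℝ) < v 0 := by exact_mod_cast hlt
    have h5 : (v 1 : ℝ) < u 1 := by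
      by_contra hcon
      push Not at hcon
      nlinarith
    have h5' : v 1 < u 1 := by exact_mod_cast h5
    refine ⟨u 1 - v 1, v 0 - u 0, by omega, by omega, ?_⟩
    apply Real.log_injOn_pos (Set.mem_Ioi.2 (by positivity)) (Set.mem_Ioi.2 (by positivity))
    rw [Real.log_pow, Real.log_pow, Nat.cast_sub h5'.le, Nat.cast_sub hlt.le]
    linarith
  rcases lt_trichotomy (m 0) (m' 0) with h6 | h6 | h6
  · exact concl m m' hE h6
  · exfalso
    rw [h6] at hE
    have h7 : (m 1 : ℝ) * β = (m' 1 : ℝ) * β := by linarith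
    have h8 : (m 1 : ℝ) = m' 1 := mul_right_cancel₀ hβ0.ne' h7
    have h9 : m 1 = m' 1 := by exact_mod_cast h8
    apply hmm
    ext i
    fin_cases i
    · exact h6
    · exact h9
  · exact concl m' m hE.symm h6

end

section

variable {L : Type*} [Field L]

/-- the leading quasihomogeneous part as a polynomial -/
noncomputable def leadP (h : MvPolynomial (Fin 2) L) (a b K : ℕ) : L[X] :=
  ∑ m ∈ h.support with a * m 0 + b * m 1 = K, Polynomial.monomial (m 1) (h.coeff m)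

theorem leadP_ne_zero (h : MvPolynomial (Fin 2) L) (a b : ℕ) (ha : 0 < a)
    (m : Fin 2 →₀ ℕ) (hm : m ∈ h.support) : leadP h a b (a * m 0 + b * m 1) ≠ 0 := by
  classical
  intro h1
  have h2 : (leadP h a b (a * m 0 + b * m 1)).coeff (m 1) = h.coeff m := by
    rw [leadP, Polynomial.finset_sum_coeff]
    rw [Finset.sum_eq_single m]
    · simp
    · intro m' hm' hne'
      rw [Polynomial.coeff_monomial, if_neg]
      intro he
      apply hne'
      have h3 := (Finset.mem_filter.1 hm').2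
      rw [he] at h3
      have h4 : a * m' 0 = a * m 0 := by omega
      have h5 := Nat.eq_of_mul_eq_mul_left ha h4
      ext i
      fin_cases i
      · exact h5
      · exact he
    · intro hcon
      exfalso
      apply hcon
      rw [Finset.mem_filter]
      exact ⟨hm, rfl⟩
  rw [h1, Polynomial.coeff_zero] at h2
  exact (MvPolynomial.mem_support_iff.1 hm) h2.symm

end

section

variable {L : Type*} [NormedField L] [IsUltrametricDist L]

theorem lead_est (h : MvPolynomial (Fin 2) L) (a b K : ℕ) (ha : 0 < a) (hb : 0 < b)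
    (hK : ∀ m ∈ h.support, a * m 0 + b * m 1 ≤ K) (M : ℝ) (hM : 1 ≤ M) :
    ∃ C : ℝ, ∀ (T w x y : L), 1 ≤ ‖T‖ → ‖w‖ = 1 → ‖x - T ^ a‖ ≤ M → ‖y - w * T ^ b‖ ≤ M →
      ‖x‖ = ‖T ^ a‖ → ‖y‖ = ‖w * T ^ b‖ → MvPolynomial.eval ![x, y] h = 0 →
      ‖T‖ * ‖(leadP h a b K).eval w‖ ≤ C := by
  classical
  refine ⟨(∑ m ∈ h.support, ‖h.coeff m‖) * M, fun T w x y hT hw hx hy hx' hy' hh => ?_⟩
  have hM0 : 0 ≤ M := by linarith
  have hT0 : 0 < ‖T‖ := by linarith
  rw [eval_eq_sum] at hh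
  have hnw : ‖w * T ^ b‖ = ‖T‖ ^ b := by rw [norm_mul, hw, one_mul, norm_pow]
  have h1 : (leadP h a b K).eval w * T ^ K = ∑ m ∈ h.support,
      if a * m 0 + b * m 1 = K then
        h.coeff m * ((T ^ a) ^ (m 0) * (w * T ^ b) ^ (m 1) - x ^ (m 0) * y ^ (m 1))
      else - (h.coeff m * (x ^ (m 0) * y ^ (m 1))) := by
    have e1 : (leadP h a b K).eval w * T ^ K = ∑ m ∈ h.support,
        if a * m 0 + b * m 1 = K then h.coeff m * ((T ^ a) ^ (m 0) * (w * T ^ b) ^ (m 1)) else 0 := by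
      rw [leadP, Polynomial.eval_finset_sum, Finset.sum_filter, Finset.sum_mul]
      refine Finset.sum_congr rfl fun m _ => ?_
      by_cases hm : a * m 0 + b * m 1 = K
      · rw [if_pos hm, if_pos hm, Polynomial.eval_monomial, ← hm, pow_add, mul_pow, ← pow_mul,
          ← pow_mul]
        ring
      · rw [if_neg hm, if_neg hm, zero_mul]
    have e2 : (∑ m ∈ h.support,
        if a * m 0 + b * m 1 = K then h.coeff m * ((T ^ a) ^ (m 0) * (w * T ^ b) ^ (m 1)) else 0) =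
        (∑ m ∈ h.support,
        if a * m 0 + b * m 1 = K then h.coeff m * ((T ^ a) ^ (m 0) * (w * T ^ b) ^ (m 1)) else 0) -
        ∑ m ∈ h.support, h.coeff m * (x ^ (m 0) * y ^ (m 1)) := by
      rw [hh, sub_zero]
    rw [e1, e2, ← Finset.sum_sub_distrib]
    refine Finset.sum_congr rfl fun m _ => ?_
    by_cases hm : a * m 0 + b * m 1 = K
    · rw [if_pos hm, if_pos hm]
      ring
    · rw [if_neg hm, if_neg hm]
      ring
  have h2 : ‖T‖ * ‖(leadP h a b K).eval w * T ^ K‖ ≤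
      ((∑ m ∈ h.support, ‖h.coeff m‖) * M) * ‖T‖ ^ K := by
    have hle : ∀ m ∈ h.support, ‖h.coeff m‖ ≤ ∑ m ∈ h.support, ‖h.coeff m‖ := fun m hm =>
      Finset.single_le_sum (f := fun m => ‖h.coeff m‖) (fun _ _ => norm_nonneg _) hm
    have hterm : ∀ m ∈ h.support, ‖T‖ * ‖(if a * m 0 + b * m 1 = K then
        h.coeff m * ((T ^ a) ^ (m 0) * (w * T ^ b) ^ (m 1) - x ^ (m 0) * y ^ (m 1))
        else - (h.coeff m * (x ^ (m 0) * y ^ (m 1))) : L)‖ ≤
        ((∑ m ∈ h.support, ‖h.coeff m‖) * M) * ‖T‖ ^ K := by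
      intro m hm
      by_cases hmK : a * m 0 + b * m 1 = K
      · rw [if_pos hmK, norm_mul, norm_sub_rev]
        have h3 := mono_sub_le x (T ^ a) y (w * T ^ b) M ‖T‖ hM0 hT a b ha hb (norm_pow _ _) hnw
          hx hy hx' hy' (m 0) (m 1)
        rw [hmK] at h3
        calc ‖T‖ * (‖h.coeff m‖ * ‖x ^ (m 0) * y ^ (m 1) - (T ^ a) ^ (m 0) * (w * T ^ b) ^ (m 1)‖)
            = ‖h.coeff m‖ *
              (‖T‖ * ‖x ^ (m 0) * y ^ (m 1) - (T ^ a) ^ (m 0) * (w * T ^ b) ^ (m 1)‖) := by ring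
          _ ≤ (∑ m ∈ h.support, ‖h.coeff m‖) * (M * ‖T‖ ^ K) :=
              mul_le_mul (hle m hm) h3 (by positivity)
                (Finset.sum_nonneg fun _ _ => norm_nonneg _)
          _ = _ := by ring
      · rw [if_neg hmK, norm_neg, norm_mul, norm_mul, norm_pow, norm_pow, hx', hy', norm_pow, hnw,
          ← pow_mul, ← pow_mul, ← pow_add]
        have h4 : a * m 0 + b * m 1 + 1 ≤ K := by
          have := hK m hm
          omega
        calc ‖T‖ * (‖h.coeff m‖ * ‖T‖ ^ (a * m 0 + b * m 1))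
            = ‖h.coeff m‖ * ‖T‖ ^ (a * m 0 + b * m 1 + 1) := by
              rw [pow_succ]
              ring
          _ ≤ (∑ m ∈ h.support, ‖h.coeff m‖) * ‖T‖ ^ K :=
              mul_le_mul (hle m hm) (pow_le_pow_right₀ hT h4) (by positivity)
                (Finset.sum_nonneg fun _ _ => norm_nonneg _)
          _ ≤ (∑ m ∈ h.support, ‖h.coeff m‖) * M * ‖T‖ ^ K := by
              refine mul_le_mul_of_nonneg_right ?_ (by positivity)
              exact le_mul_of_one_le_right (Finset.sum_nonneg fun _ _ => norm_nonneg _) hM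
    rw [h1]
    rcases h.support.eq_empty_or_nonempty with he | he
    · rw [he]
      simp
    · obtain ⟨m, hm, hm'⟩ := IsUltrametricDist.exists_norm_finset_sum_le_of_nonempty he
        (fun m => (if a * m 0 + b * m 1 = K then
          h.coeff m * ((T ^ a) ^ (m 0) * (w * T ^ b) ^ (m 1) - x ^ (m 0) * y ^ (m 1))
          else - (h.coeff m * (x ^ (m 0) * y ^ (m 1))) : L))
      exact (mul_le_mul_of_nonneg_left hm' hT0.le).trans (hterm m hm)
  rw [norm_mul, norm_pow, ← mul_assoc] at h2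
  exact le_of_mul_le_mul_right h2 (by positivity)

end

end Pool.Agent.Helper79.DM
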