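import Pool.Agent.Helper79.DM.F2
import Pool.Agent.Helper78.DM.E
import Pool.Agent.Helper90.DM.B
import Pool.Agent.Helper93.DM.Psi

/-!
# The local theorem: the core
-/

set_option autoImplicit false
set_option linter.unusedSectionVars false

namespace Pool.Agent.Helper79.DM

open Polynomial Finset

section

variable {L : Type*} [NormedField L] [IsAlgClosed L]

/-- if `P (w n)` tends to zero along `S` then `w n` tends to a root along an infinite subset -/
theorem root_limit (P : L[X]) (hP : P ≠ 0) (S : Set ℕ) (hS : S.Infinite) (w : ℕ → L)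
    (h : ∀ ε : ℝ, 0 < ε → ∃ n₀, ∀ n ∈ S, n₀ ≤ n → ‖P.eval (w n)‖ < ε) :
    ∃ (r : L) (S' : Set ℕ), S' ⊆ S ∧ S'.Infinite ∧
      ∀ ε : ℝ, 0 < ε → ∃ n₀, ∀ n ∈ S', n₀ ≤ n → ‖w n - r‖ < ε := by
  classical
  have hlc : 0 < ‖P.leadingCoeff‖ := norm_pos_iff.2 (leadingCoeff_ne_zero.2 hP)
  have hev : ∀ z : L, P.eval z = P.leadingCoeff * (P.roots.map fun r => z - r).prod := by
    intro z
    have h1 := (IsAlgClosed.splits P).eq_prod_roots
    conv_lhs => rw [h1]
    rw [eval_mul, eval_C, eval_multiset_prod, Multiset.map_map]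
    simp
  set D := Multiset.card P.roots with hD
  have key : ∀ n ∈ S, ∃ r ∈ insert (0 : L) P.roots.toFinset,
      ‖P.leadingCoeff‖ * ‖w n - r‖ ^ D ≤ ‖P.eval (w n)‖ := by
    intro n _
    rcases P.roots.toFinset.eq_empty_or_nonempty with he | he
    · refine ⟨0, mem_insert_self _ _, ?_⟩
      have h2 : P.roots = 0 := Multiset.toFinset_eq_empty.1 he
      rw [hev, hD, h2]
      simp
    · obtain ⟨r, hr, hmin⟩ := P.roots.toFinset.exists_min_image (fun r => ‖w n - r‖) he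
      refine ⟨r, mem_insert_of_mem hr, ?_⟩
      rw [hev, norm_mul]
      refine mul_le_mul_of_nonneg_left ?_ (norm_nonneg _)
      have h3 : ∀ s : Multiset L, (∀ t ∈ s, ‖w n - r‖ ≤ ‖w n - t‖) →
          ‖w n - r‖ ^ Multiset.card s ≤ ‖(s.map fun t => w n - t).prod‖ := by
        intro s
        induction s using Multiset.induction_on with
        | empty => simp
        | cons a s ih =>
          intro hs
          rw [Multiset.card_cons, Multiset.map_cons, Multiset.prod_cons, norm_mul, pow_succ,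
            mul_comm]
          exact mul_le_mul (hs a (Multiset.mem_cons_self _ _))
            (ih fun t ht => hs t (Multiset.mem_cons_of_mem ht)) (by positivity) (norm_nonneg _)
      exact h3 _ fun t ht => hmin t (Multiset.mem_toFinset.2 ht)
  obtain ⟨r, hr, hinf⟩ := pigeon _ S hS _ key
  refine ⟨r, _, fun n hn => hn.1, hinf, fun ε hε => ?_⟩
  obtain ⟨n₀, hn₀⟩ := h (‖P.leadingCoeff‖ * ε ^ D) (by positivity)
  refine ⟨n₀, fun n hn hnn => ?_⟩
  have h4 := (hn.2).trans_lt (hn₀ n hn.1 hnn)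
  have h5 : ‖w n - r‖ ^ D < ε ^ D := lt_of_mul_lt_mul_left h4 hlc.le
  exact lt_of_pow_lt_pow_left₀ D hε.le h5

end

theorem iterate_pow_root {L : Type*} [Field L] (u : L) (d N : ℕ) (hN : 0 < N) (hu : u ^ N = 1) :
    ∃ n₁ P, 0 < P ∧ ∀ n, n₁ ≤ n → u ^ d ^ (n + P) = u ^ d ^ n := by
  classical
  -- the values lie in the finite set of roots of unity
  have hfin : ({z : L | z ^ N = 1}).Finite := by
    have : {z : L | z ^ N = 1} ⊆ (nthRoots N (1 : L)).toFinset := by
      intro z hz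
      rw [Finset.mem_coe, Multiset.mem_toFinset, mem_nthRoots hN]
      exact hz
    exact (Finset.finite_toSet _).subset this
  have hmem : ∀ n, u ^ d ^ n ∈ {z : L | z ^ N = 1} := by
    intro n
    show (u ^ d ^ n) ^ N = 1
    rw [← pow_mul, mul_comm, pow_mul, hu, one_pow]
  have : ∃ m n, m ≠ n ∧ u ^ d ^ m = u ^ d ^ n := by
    by_contra hcon
    push Not at hcon
    have hinj : Function.Injective fun n => u ^ d ^ n := by
      intro m n hmn
      by_contra hne
      exact hcon m n hne hmn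
    exact Set.infinite_univ ((hfin.preimage hinj.injOn).subset fun n _ => hmem n)
  obtain ⟨m, n, hmn, he⟩ := this
  wlog hlt : m < n generalizing m n
  · exact this n m hmn.symm he.symm (by omega)
  refine ⟨m, n - m, by omega, fun k hk => ?_⟩
  have h1 : k + (n - m) = n + (k - m) := by omega
  have h2 : k = m + (k - m) := by omega
  rw [h1, pow_add, pow_mul, ← he, ← pow_mul, ← pow_add, ← h2]

/-- the core of the local theorem, in Boettcher coordinates -/
theorem core {p : ℕ} [Fact p.Prime] {L : Type*} [NormedField L] [IsUltrametricDist L]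
    [CompleteSpace L] [IsAlgClosed L] [CharP L p] (c c' : ℕ → L) (M : ℝ) (hM : 1 ≤ M)
    (c0 : c 0 = 1) (c0' : c' 0 = 1) (hc : ∀ k, ‖c k‖ ≤ M ^ k) (hc' : ∀ k, ‖c' k‖ ≤ M ^ k)
    (d : ℕ) (hd : 2 ≤ d) (hpd : ∀ k, d ≠ p ^ k) (X Y : L) (hX : M < ‖X‖) (hY : M < ‖Y‖)
    (h : MvPolynomial (Fin 2) L) (h0 : h ≠ 0) :
    EP {n | MvPolynomial.eval ![psi c (X ^ d ^ n), psi c' (Y ^ d ^ n)] h = 0} := by
  classical
  set R : Set ℕ := {n | MvPolynomial.eval ![psi c (X ^ d ^ n), psi c' (Y ^ d ^ n)] h = 0} with hR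
  by_cases hfin : R.Finite
  · exact EP.of_finite hfin
  have hinf : R.Infinite := hfin
  have hp : p.Prime := Fact.out
  obtain ⟨P1, P2, P3⟩ := psi_props c M hM c0 hc
  obtain ⟨P1', P2', P3'⟩ := psi_props c' M hM c0' hc'
  have hX1 : 1 < ‖X‖ := hM.trans_lt hX
  have hY1 : 1 < ‖Y‖ := hM.trans_lt hY
  have hdpos : ∀ n, 0 < d ^ n := fun n => pow_pos (by omega) n
  have hXn : ∀ n, M < ‖X ^ d ^ n‖ := by
    intro n
    rw [norm_pow]
    exact hX.trans_le (le_self_pow₀ hX1.le (hdpos n).ne')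
  have hYn : ∀ n, M < ‖Y ^ d ^ n‖ := by
    intro n
    rw [norm_pow]
    exact hY.trans_le (le_self_pow₀ hY1.le (hdpos n).ne')
  -- the two speeds
  obtain ⟨a, b, ha, hb, hab⟩ := ratio h h0 ‖X‖ ‖Y‖ hX1 hY1 d hd (fun n => psi c (X ^ d ^ n))
    (fun n => psi c' (Y ^ d ^ n)) R hinf
    (fun n => by rw [← norm_pow]; exact P1 _ (hXn n))
    (fun n => by rw [← norm_pow]; exact P1' _ (hYn n)) (fun n hn => hn)
  obtain ⟨T₀, hT₀⟩ := IsAlgClosed.exists_pow_nat_eq X ha
  have hT₀n : ‖T₀‖ ^ a = ‖X‖ := by rw [← norm_pow, hT₀]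
  have hT₀1 : 1 < ‖T₀‖ := by
    by_contra hcon
    push Not at hcon
    have := pow_le_one₀ (n := a) (norm_nonneg T₀) hcon
    rw [hT₀n] at this
    linarith
  have hT₀0 : T₀ ≠ 0 := by
    rw [← norm_pos_iff]
    linarith
  set u := Y / T₀ ^ b with hu
  have hYu : Y = u * T₀ ^ b := by
    rw [hu]
    field_simp
  have hu1 : ‖u‖ = 1 := by
    have h1 : ‖u‖ ^ a = 1 := by
      rw [hu, norm_div, norm_pow, div_pow, ← pow_mul, mul_comm b a, pow_mul, hT₀n, hab,
        div_self]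
      positivity
    exact (pow_eq_one_iff_of_nonneg (norm_nonneg _) ha.ne').1 h1
  set T : ℕ → L := fun n => T₀ ^ d ^ n with hT
  set w : ℕ → L := fun n => u ^ d ^ n with hw
  have hw1 : ∀ n, ‖w n‖ = 1 := fun n => by
    rw [hw]
    simp [hu1]
  have hXT : ∀ n, X ^ d ^ n = 1 * T n ^ a := by
    intro n
    rw [one_mul, hT, ← hT₀]
    show (T₀ ^ a) ^ d ^ n = (T₀ ^ d ^ n) ^ a
    rw [← pow_mul, ← pow_mul, mul_comm]
  have hYT : ∀ n, Y ^ d ^ n = w n * T n ^ b := by
    intro n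
    rw [hYu]
    show (u * T₀ ^ b) ^ d ^ n = u ^ d ^ n * (T₀ ^ d ^ n) ^ b
    rw [mul_pow, ← pow_mul, ← pow_mul, mul_comm b]
  have hTn : ∀ n, ‖T n‖ = ‖T₀‖ ^ d ^ n := fun n => by
    rw [hT]
    exact norm_pow _ _
  have hTlarge : ∀ B : ℝ, ∃ n₀, ∀ n, n₀ ≤ n → B < ‖T n‖ := by
    intro B
    obtain ⟨n₀, hn₀⟩ := large_pow ‖T₀‖ hT₀1 d hd B
    exact ⟨n₀, fun n hn => by rw [hTn]; exact hn₀ n hn⟩
  -- the curve and its Hasse derivatives
  have hconv : ∀ (z : L), ‖z‖ = 1 → ∀ l, Conv fun t => hasse h l (psi c (1 * t ^ a))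
      (psi c' (z * t ^ b)) := fun z hz l =>
    Conv.hasse h l (Conv.psi hM hc 1 (by simp) a ha) (Conv.psi hM hc' z hz b hb)
  by_cases hroot : ∃ N, 0 < N ∧ u ^ N = 1
  · -- root of unity
    obtain ⟨N, hN, huN⟩ := hroot
    obtain ⟨n₁, P, hP, hper⟩ := iterate_pow_root u d N hN huN
    have hwfin : (Set.range w).Finite := by
      have : Set.range w ⊆ (Finset.range (n₁ + P)).image w := by
        rintro _ ⟨n, rfl⟩
        induction n using Nat.strong_induction_on with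
        | _ n ih =>
          by_cases hn : n < n₁ + P
          · exact Finset.mem_coe.2 (Finset.mem_image_of_mem _ (Finset.mem_range.2 hn))
          · have h1 := hper (n - P) (by omega)
            have h2 : n - P + P = n := by omega
            rw [h2] at h1
            have h3 : w n = w (n - P) := h1
            rw [h3]
            exact ih (n - P) (by omega)
      exact (Finset.finite_toSet _).subset this
    -- a common radius
    have hrad : ∃ ρ : ℝ, ∀ z ∈ Set.range w, (∀ t : L, ρ < ‖t‖ →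
        hasse h 0 (psi c (1 * t ^ a)) (psi c' (z * t ^ b)) = 0) ∨
        (∀ t : L, ρ < ‖t‖ → hasse h 0 (psi c (1 * t ^ a)) (psi c' (z * t ^ b)) ≠ 0) := by
      have h1 : ∀ z ∈ Set.range w, ∃ ρ : ℝ, (∀ t : L, ρ < ‖t‖ →
        hasse h 0 (psi c (1 * t ^ a)) (psi c' (z * t ^ b)) = 0) ∨
        (∀ t : L, ρ < ‖t‖ → hasse h 0 (psi c (1 * t ^ a)) (psi c' (z * t ^ b)) ≠ 0) := by
        rintro z ⟨n, rfl⟩
        rcases (hconv (w n) (hw1 n) 0).dichotomy with ⟨ρ, hρ⟩ | ⟨C, ρ, m, hC, hρ⟩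
        · exact ⟨ρ, Or.inl hρ⟩
        · refine ⟨max ρ 0, Or.inr fun t ht => ?_⟩
          rw [← norm_pos_iff, hρ t (lt_of_le_of_lt (le_max_left _ _) ht)]
          have : 0 < ‖t‖ := lt_of_le_of_lt (le_max_right _ _) ht
          positivity
      choose! ρ hρ using h1
      obtain ⟨B, hB⟩ := (hwfin.image ρ).bddAbove
      refine ⟨B, fun z hz => ?_⟩
      have hle : ρ z ≤ B := hB ⟨z, hz, rfl⟩
      rcases hρ z hz with h2 | h2
      · exact Or.inl fun t ht => h2 t (hle.trans_lt ht)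
      · exact Or.inr fun t ht => h2 t (hle.trans_lt ht)
    obtain ⟨ρ, hρ⟩ := hrad
    obtain ⟨n₂, hn₂⟩ := hTlarge ρ
    refine ⟨max n₁ n₂, P, hP, fun n hn => ?_⟩
    have hn1 : n₁ ≤ n := (le_max_left _ _).trans hn
    have hn2 : n₂ ≤ n := (le_max_right _ _).trans hn
    have hwn : w (n + P) = w n := hper n hn1
    have e1 : ∀ k, k ∈ R ↔ hasse h 0 (psi c (1 * T k ^ a)) (psi c' (w k * T k ^ b)) = 0 := by
      intro k
      rw [hasse_zero, ← hXT, ← hYT]
      rfl
    rw [e1, e1, hwn]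
    rcases hρ (w n) ⟨n, rfl⟩ with h2 | h2
    · exact ⟨fun _ => h2 _ (hn₂ _ (by omega)), fun _ => h2 _ (hn₂ _ hn2)⟩
    · exact ⟨fun h3 => absurd h3 (h2 _ (hn₂ _ hn2)),
        fun h3 => absurd h3 (h2 _ (hn₂ _ (by omega)))⟩
  · exfalso
    have hnr : ∀ N : ℕ, 0 < N → u ^ N ≠ 1 := fun N hN h1 => hroot ⟨N, hN, h1⟩
    -- leading part
    have hne : h.support.Nonempty := by
      rw [Finset.nonempty_iff_ne_empty]
      exact fun he => h0 (MvPolynomial.support_eq_empty.1 he)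
    obtain ⟨ms, hms, hmax⟩ := h.support.exists_max_image (fun m => a * m 0 + b * m 1) hne
    set K := a * ms 0 + b * ms 1 with hK
    have hP : leadP h a b K ≠ 0 := leadP_ne_zero h a b ha ms hms
    obtain ⟨C₁, hC₁⟩ := lead_est h a b K ha hb hmax M hM
    have hT1 : ∀ n, 1 ≤ ‖T n‖ := fun n => by
      rw [hTn]
      exact one_le_pow₀ hT₀1.le
    have hxn : ∀ n, ‖psi c (X ^ d ^ n)‖ = ‖T n ^ a‖ := fun n => by
      have := P1 _ (hXn n)
      rw [hXT, one_mul] at this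
      rw [hXT, one_mul]
      exact this
    have hyn : ∀ n, ‖psi c' (Y ^ d ^ n)‖ = ‖w n * T n ^ b‖ := fun n => by
      rw [← hYT]
      exact P1' _ (hYn n)
    have hest : ∀ n ∈ R, ‖T n‖ * ‖(leadP h a b K).eval (w n)‖ ≤ C₁ := by
      intro n hn
      refine hC₁ (T n) (w n) (psi c (X ^ d ^ n)) (psi c' (Y ^ d ^ n)) (hT1 n) (hw1 n) ?_ ?_
        (hxn n) (hyn n) hn
      · have := psi_sub_le c M hM c0 hc _ (hXn n)
        rw [hXT, one_mul] at this
        rw [hXT, one_mul]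
        exact this
      · rw [← hYT]
        exact psi_sub_le c' M hM c0' hc' _ (hYn n)
    obtain ⟨r, S', hS'R, hS'inf, hlim⟩ := root_limit (leadP h a b K) hP R hinf w (by
      intro ε hε
      obtain ⟨n₀, hn₀⟩ := hTlarge (C₁ / ε)
      refine ⟨n₀, fun n hn hnn => ?_⟩
      have h1 := hest n hn
      have h2 := hn₀ n hnn
      rw [div_lt_iff₀ hε] at h2
      by_contra hcon
      push Not at hcon
      have h3 : ‖T n‖ * ε ≤ ‖T n‖ * ‖(leadP h a b K).eval (w n)‖ :=
        mul_le_mul_of_nonneg_left hcon (norm_nonneg _)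
      linarith)
    have hr1 : ‖r‖ = 1 := by
      obtain ⟨n₀, hn₀⟩ := hlim 1 one_pos
      obtain ⟨n, hn, hnn⟩ := hS'inf.exists_gt n₀
      have h1 := hn₀ n hn hnn.le
      have h2 : ‖r‖ = ‖w n‖ := by
        have h3 : r = w n + (r - w n) := by ring
        rw [norm_sub_rev] at h1
        rw [h3, IsUltrametricDist.norm_add_eq_max_of_norm_ne_norm, max_eq_left]
        · rw [hw1]
          exact h1.le
        · rw [hw1]
          exact h1.ne'
      rw [h2, hw1]
    obtain ⟨e, rr, n₃, he0, he1, hdist⟩ := power_dist p d hd u r hu1 hnr S' hS'inf hlim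
    -- dichotomies
    set D := h.degreeOf 1 with hD
    have hdich : ∀ l, ∃ (ρ C : ℝ) (m : ℤ), (∀ t : L, ρ < ‖t‖ →
        hasse h l (psi c (1 * t ^ a)) (psi c' (r * t ^ b)) = 0) ∨
        (0 < C ∧ ∀ t : L, ρ < ‖t‖ →
          ‖hasse h l (psi c (1 * t ^ a)) (psi c' (r * t ^ b))‖ = C * ‖t‖ ^ m) := by
      intro l
      rcases (hconv r hr1 l).dichotomy with ⟨ρ, hρ⟩ | ⟨C, ρ, m, hC, hρ⟩
      · exact ⟨ρ, 0, 0, Or.inl hρ⟩
      · exact ⟨ρ, C, m, Or.inr ⟨hC, hρ⟩⟩
    choose ρ CC mm hρ using hdich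
    obtain ⟨n₄, hn₄⟩ := hTlarge (∑ l ∈ range (D + 1), |ρ l|)
    have hρl : ∀ l ∈ range (D + 1), ∀ n, n₄ ≤ n → ρ l < ‖T n‖ := by
      intro l hl n hn
      refine lt_of_le_of_lt ?_ (hn₄ n hn)
      exact (le_abs_self _).trans (Finset.single_le_sum (f := fun l => |ρ l|)
        (fun _ _ => abs_nonneg _) hl)
    obtain ⟨Rt, hRt⟩ := eval_ne_of_large (topP h) (topP_ne_zero h h0)
    obtain ⟨n₅, hn₅⟩ := hTlarge (max Rt 1)
    set n₆ := max (max n₃ n₄) n₅ with hn₆
    -- the displacement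
    set Δ : ℕ → L := fun n => psi c' (w n * T n ^ b) - psi c' (r * T n ^ b) with hΔ
    have hTb : ∀ n, M < ‖T n ^ b‖ := fun n => by
      have := hYn n
      rwa [hYT, norm_mul, hw1, one_mul] at this
    have hΔn : ∀ n ∈ S', n₆ ≤ n → ‖Δ n‖ = e ^ p ^ rr n * ‖T n‖ ^ b := by
      intro n hn hnn
      have h1 : ‖Δ n‖ = ‖w n * T n ^ b - r * T n ^ b‖ := by
        refine P2' _ _ ?_ ?_
        · rw [norm_mul, hw1, one_mul]
          exact hTb n
        · rw [norm_mul, hr1, one_mul]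
          exact hTb n
      rw [h1, ← sub_mul, norm_mul, norm_pow, hdist n hn (by omega)]
    have hstep : ∀ n ∈ {n | n ∈ S' ∧ n₆ ≤ n}, ∃ q ∈ range (D + 1) ×ˢ range (D + 1),
        q.1 < q.2 ∧ 0 < CC q.1 ∧ 0 < CC q.2 ∧
        CC q.1 * ‖T n‖ ^ mm q.1 * ‖Δ n‖ ^ q.1 = CC q.2 * ‖T n‖ ^ mm q.2 * ‖Δ n‖ ^ q.2 := by
      rintro n ⟨hn, hnn⟩
      have hn3 : n₃ ≤ n := by omega
      have hn4 : n₄ ≤ n := by omega
      have hn5 : n₅ ≤ n := by omega
      have hTpos : 0 < ‖T n‖ := lt_of_lt_of_le one_pos (hT1 n)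
      have hΔ0 : Δ n ≠ 0 := by
        rw [← norm_pos_iff, hΔn n hn hnn]
        positivity
      have hsum : ∑ l ∈ range (D + 1), hasse h l (psi c (1 * T n ^ a)) (psi c' (r * T n ^ b)) *
          Δ n ^ l = 0 := by
        rw [hD, ← taylor]
        have h1 : psi c' (r * T n ^ b) + Δ n = psi c' (Y ^ d ^ n) := by
          rw [hYT, hΔ]
          show psi c' (r * T n ^ b) + (psi c' (w n * T n ^ b) - psi c' (r * T n ^ b)) = _
          ring
        rw [h1, ← hXT]
        exact hS'R hn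
      have htop : hasse h D (psi c (1 * T n ^ a)) (psi c' (r * T n ^ b)) * Δ n ^ D ≠ 0 := by
        refine mul_ne_zero ?_ (pow_ne_zero _ hΔ0)
        rw [hD, hasse_top]
        refine hRt _ ?_
        rw [← hXT, hxn, norm_pow]
        have h2 := hn₅ n hn5
        exact (lt_of_le_of_lt (le_max_left _ _) h2).trans_le (le_self_pow₀ (hT1 n) ha.ne')
      obtain ⟨l, hl, l', hl', hll, hne1, hne2, heq⟩ := two_max _ _ hsum
        (Finset.mem_range.2 (Nat.lt_succ_self D)) htop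
      have hval : ∀ k ∈ range (D + 1),
          hasse h k (psi c (1 * T n ^ a)) (psi c' (r * T n ^ b)) * Δ n ^ k ≠ 0 →
          0 < CC k ∧ ‖hasse h k (psi c (1 * T n ^ a)) (psi c' (r * T n ^ b)) * Δ n ^ k‖ =
            CC k * ‖T n‖ ^ mm k * ‖Δ n‖ ^ k := by
        intro k hk hk0
        rcases hρ k with h3 | ⟨h3, h4⟩
        · exact absurd (by rw [h3 _ (hρl k hk n hn4), zero_mul]) hk0
        · refine ⟨h3, ?_⟩
          rw [norm_mul, norm_pow, h4 _ (hρl k hk n hn4)]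
      obtain ⟨c1, v1⟩ := hval l hl hne1
      obtain ⟨c2, v2⟩ := hval l' hl' hne2
      rcases lt_or_gt_of_ne hll with hlt | hlt
      · refine ⟨(l, l'), Finset.mem_product.2 ⟨hl, hl'⟩, hlt, c1, c2, ?_⟩
        rw [← v1, ← v2]
        exact heq
      · refine ⟨(l', l), Finset.mem_product.2 ⟨hl', hl⟩, hlt, c2, c1, ?_⟩
        rw [← v1, ← v2]
        exact heq.symm
    have hS₂ : {n | n ∈ S' ∧ n₆ ≤ n}.Infinite := by
      intro hf
      apply hS'inf
      refine (hf.union (Set.finite_lt_nat n₆)).subset fun n hn => ?_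
      rcases lt_or_ge n n₆ with h1 | h1
      · exact Or.inr h1
      · exact Or.inl ⟨hn, h1⟩
    obtain ⟨⟨l, l'⟩, -, hinf2⟩ := pigeon _ _ hS₂ _ hstep
    set τ := Real.log ‖T₀‖ with hτ
    have hτ0 : 0 < τ := Real.log_pos hT₀1
    set lam := Real.log e with hlam
    have hlam0 : lam < 0 := Real.log_neg he0 he1
    obtain ⟨nn, hnn⟩ := hinf2.nonempty
    obtain ⟨-, hll, hc1, hc2, -⟩ := hnn
    have hll' : (0 : ℝ) < (l' : ℝ) - l := by
      have : (l : ℝ) < l' := by exact_mod_cast hll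
      linarith
    set A := -(((l' : ℝ) - l) * lam) with hA
    have hA0 : 0 < A := by
      rw [hA]
      have := mul_neg_of_pos_of_neg hll' hlam0
      linarith
    set B := τ * ((b : ℝ) * ((l' : ℝ) - l) - ((mm l : ℝ) - mm l')) with hB
    set C := Real.log (CC l') - Real.log (CC l) with hC
    have heqn : ∀ n ∈ {n | n ∈ {n | n ∈ S' ∧ n₆ ≤ n} ∧ (l, l').1 < (l, l').2 ∧ 0 < CC (l, l').1 ∧
        0 < CC (l, l').2 ∧ CC (l, l').1 * ‖T n‖ ^ mm (l, l').1 * ‖Δ n‖ ^ (l, l').1 =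
        CC (l, l').2 * ‖T n‖ ^ mm (l, l').2 * ‖Δ n‖ ^ (l, l').2},
        A * (p : ℝ) ^ rr n = B * (d : ℝ) ^ n + C := by
      rintro n ⟨⟨hn, hnn⟩, -, -, -, heq⟩
      have hTpos : 0 < ‖T n‖ := lt_of_lt_of_le one_pos (hT1 n)
      have hΔpos : 0 < ‖Δ n‖ := by
        rw [hΔn n hn hnn]
        positivity
      have hlogT : Real.log ‖T n‖ = (d : ℝ) ^ n * τ := by
        rw [hTn, Real.log_pow]
        push_cast
        rfl
      have hlogΔ : Real.log ‖Δ n‖ = (p : ℝ) ^ rr n * lam + b * ((d : ℝ) ^ n * τ) := by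
        rw [hΔn n hn hnn, Real.log_mul (by positivity) (by positivity), Real.log_pow,
          Real.log_pow, hlogT]
        push_cast
        rfl
      have hL : ∀ k : ℕ, 0 < CC k → Real.log (CC k * ‖T n‖ ^ mm k * ‖Δ n‖ ^ k) =
          Real.log (CC k) + mm k * ((d : ℝ) ^ n * τ) +
            k * ((p : ℝ) ^ rr n * lam + b * ((d : ℝ) ^ n * τ)) := by
        intro k hk
        rw [Real.log_mul (by positivity) (by positivity), Real.log_mul hk.ne' (by positivity),
          Real.log_zpow, Real.log_pow, hlogT, hlogΔ]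
      have h5 := congrArg Real.log heq
      rw [hL _ hc1, hL _ hc2] at h5
      rw [hA, hB, hC]
      simp only at h5
      linear_combination h5
    have hB0 : 0 < B := by
      by_contra hcon
      push Not at hcon
      obtain ⟨N₀, hN₀⟩ := exists_nat_ge (C / A)
      obtain ⟨n₇, hn₇⟩ := hlim (e ^ N₀) (by positivity)
      obtain ⟨n, hn, hnn⟩ := hinf2.exists_gt n₇
      have h6 := heqn n hn
      have h7 : A * (p : ℝ) ^ rr n ≤ C := by
        have : B * (d : ℝ) ^ n ≤ 0 := mul_nonpos_of_nonpos_of_nonneg hcon (by positivity)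
        linarith
      have h8 : (p : ℝ) ^ rr n ≤ N₀ := by
        refine le_trans ?_ hN₀
        rw [le_div_iff₀ hA0]
        linarith
      have h9 : p ^ rr n ≤ N₀ := by exact_mod_cast h8
      have h10 := hn₇ n hn.1.1 hnn.le
      have h11 : ‖w n - r‖ = e ^ p ^ rr n := hdist n hn.1.1 (by
        have := hn.1.2
        omega)
      rw [h11] at h10
      have h12 : e ^ N₀ ≤ e ^ p ^ rr n := pow_le_pow_of_le_one he0.le he1.le h9
      linarith
    exact hinf2 (expo_finite p d hp hd hpd A B C hA0 hB0 _ rr heqn)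

end Pool.Agent.Helper79.DM
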