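import Pool.Agent.Helper79.DM.F3
import Pool.Agent.Helper93.DM.Boettcher

/-!
# The local theorem
-/

set_option autoImplicit false
set_option linter.unusedSectionVars false

namespace Pool.Agent.Helper79.DM

open Polynomial Finset

/-- Boettcher coordinate of a polynomial, after a homothety -/
theorem normal {p : ℕ} [Fact p.Prime] {L : Type*} [NormedField L] [IsUltrametricDist L]
    [CompleteSpace L] [IsAlgClosed L] [CharP L p] (f : L[X])
    (h2 : 2 ≤ f.natDegree) (hpd : ∀ k, f.natDegree ≠ p ^ k) (hf : Tame p f) :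
    ∃ (c : L) (s : ℕ → L) (M : ℝ), c ≠ 0 ∧ 1 ≤ M ∧ s 0 = 1 ∧ (∀ k, ‖s k‖ ≤ M ^ k) ∧
      ∀ Z : L, M < ‖Z‖ →
        (C c * f.comp (C c⁻¹ * X)).eval (psi s Z) = psi s (Z ^ f.natDegree) := by
  obtain ⟨e, f₁, hfe, hp1⟩ := hf
  have hp : p.Prime := Fact.out
  have hdeg : f.natDegree = f₁.natDegree * p ^ e := by
    rw [hfe, natDegree_expand]
  have h1 : 2 ≤ f₁.natDegree := by
    by_contra hcon
    push Not at hcon
    interval_cases h : f₁.natDegree
    · omega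
    · exact hpd e (by rw [hdeg, one_mul])
  have hlc : f.leadingCoeff ≠ 0 := by
    rw [Ne, leadingCoeff_eq_zero]
    rintro rfl
    simp at h2
  obtain ⟨c, hc⟩ := IsAlgClosed.exists_pow_nat_eq f.leadingCoeff
    (show 0 < f.natDegree - 1 by omega)
  have hc0 : c ≠ 0 := by
    rintro rfl
    rw [zero_pow (by omega)] at hc
    exact hlc hc.symm
  have hlin : ∀ a : L, a ≠ 0 → (C a * X : L[X]).natDegree = 1 := fun a ha =>
    natDegree_C_mul_X a ha
  have hFdeg : (C c * f.comp (C c⁻¹ * X)).natDegree = f.natDegree := by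
    rw [natDegree_C_mul hc0, natDegree_comp, hlin _ (inv_ne_zero hc0), mul_one]
  have hmon : (C c * f.comp (C c⁻¹ * X)).Monic := by
    rw [Monic, leadingCoeff_mul, leadingCoeff_C, leadingCoeff_comp (by
      rw [hlin _ (inv_ne_zero hc0)]
      exact one_ne_zero), leadingCoeff_mul, leadingCoeff_C, leadingCoeff_X, mul_one, ← hc]
    have h3 : f.natDegree = (f.natDegree - 1) + 1 := by omega
    conv_lhs => rw [h3]
    simp only [Nat.add_sub_cancel, pow_succ, inv_pow]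
    field_simp
  have hexp : C c * f.comp (C c⁻¹ * X) =
      expand L (p ^ e) (C c * f₁.comp (C (c⁻¹ ^ p ^ e) * X)) := by
    rw [map_mul, expand_C, expand_eq_comp_X_pow, comp_assoc]
    congr 1
    conv_lhs => rw [hfe, expand_eq_comp_X_pow, comp_assoc]
    congr 1
    simp only [mul_comp, C_comp, X_comp, pow_comp, map_pow, mul_pow]
  have hdeg1 : (C c * f₁.comp (C (c⁻¹ ^ p ^ e) * X)).natDegree = f₁.natDegree := by
    rw [natDegree_C_mul hc0, natDegree_comp, hlin _ (pow_ne_zero _ (inv_ne_zero hc0)), mul_one]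
  obtain ⟨s, M, hM, hs0, hs, hev⟩ := boettcher (p := p) e _ _ hexp hmon (by rw [hdeg1]; exact h1)
    (by rw [hdeg1]; exact hp1)
  refine ⟨c, s, M, hc0, hM, hs0, hs, fun Z hZ => ?_⟩
  have h4 := hev Z hZ
  rw [hFdeg] at h4
  exact h4

theorem orb_psi {L : Type*} [NormedField L] (F : L[X]) (s : ℕ → L) (M : ℝ) (hM : 1 ≤ M) (d : ℕ)
    (hd : 0 < d) (hF : ∀ Z : L, M < ‖Z‖ → F.eval (psi s Z) = psi s (Z ^ d)) (Z : L)
    (hZ : M < ‖Z‖) (n : ℕ) : orb F (psi s Z) n = psi s (Z ^ d ^ n) := by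
  induction n with
  | zero => simp [orb_zero]
  | succ n ih =>
    have h1 : M < ‖Z ^ d ^ n‖ := by
      rw [norm_pow]
      exact hZ.trans_le (le_self_pow₀ (hM.trans hZ.le) (pow_pos hd n).ne')
    rw [orb_succ, ih, hF _ h1, ← pow_mul, ← pow_succ]

theorem escape {L : Type*} [NormedField L] [IsUltrametricDist L]
    [CompleteSpace L] (f : L[X]) (d : ℕ) (hd : 0 < d) (c : L) (s : ℕ → L)
    (M : ℝ) (hc : c ≠ 0) (hM : 1 ≤ M) (s0 : s 0 = 1) (hs : ∀ k, ‖s k‖ ≤ M ^ k)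
    (hF : ∀ Z : L, M < ‖Z‖ → (C c * f.comp (C c⁻¹ * X)).eval (psi s Z) = psi s (Z ^ d)) (x : L)
    (hx : ∀ B : ℝ, ∃ n, B < ‖orb f x n‖) :
    ∃ n₁, ∀ m, n₁ ≤ m → ∃ Z : L, M < ‖Z‖ ∧ ∀ n, c * orb f x (n + m) = psi s (Z ^ d ^ n) := by
  have hcn : 0 < ‖c‖ := norm_pos_iff.2 hc
  obtain ⟨n₁, hn₁⟩ := hx (M / ‖c‖)
  rw [div_lt_iff₀ hcn, mul_comm, ← norm_mul] at hn₁
  obtain ⟨-, -, P3⟩ := psi_props s M hM s0 hs
  obtain ⟨Z₁, hZ₁, hZ₁'⟩ := P3 _ hn₁
  refine ⟨n₁, fun m hm => ⟨Z₁ ^ d ^ (m - n₁), ?_, fun n => ?_⟩⟩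
  · rw [norm_pow]
    exact hZ₁.trans_le (le_self_pow₀ (hM.trans hZ₁.le) (pow_pos hd _).ne')
  · have h1 : n + m = (m - n₁ + n) + n₁ := by omega
    rw [h1, ← orb_conj c hc f x, orb_add, orb_conj c hc f x n₁]
    have h2 : c * orb f x n₁ = psi s Z₁ := hZ₁'.symm
    rw [h2, orb_psi _ s M hM d hd hF Z₁ hZ₁, ← pow_mul, ← pow_add]

theorem local_ep {p : ℕ} [Fact p.Prime] {L : Type} [NormedField L] [IsUltrametricDist L]
    [CompleteSpace L] [IsAlgClosed L] [CharP L p] (f g : L[X]) (hd : f.natDegree = g.natDegree)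
    (h2 : 2 ≤ f.natDegree) (hpd : ∀ k, f.natDegree ≠ p ^ k) (hf : Tame p f) (hg : Tame p g)
    (x y : L)
    (hx : ∀ M : ℝ, ∃ n, M < ‖orb f x n‖) (hy : ∀ M : ℝ, ∃ n, M < ‖orb g y n‖)
    (h : MvPolynomial (Fin 2) L) (h0 : h ≠ 0) : EP (ret f g x y h) := by
  obtain ⟨c, s, M, hc, hM, s0, hs, hF⟩ := normal f h2 hpd hf
  obtain ⟨c', s', M', hc', hM', s0', hs', hF'⟩ := normal g (hd ▸ h2) (hd ▸ hpd) hg
  set m := max M M' with hm
  have hm1 : 1 ≤ m := hM.trans (le_max_left _ _)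
  have hsm : ∀ k, ‖s k‖ ≤ m ^ k := fun k => (hs k).trans (by
    gcongr
    exact le_max_left _ _)
  have hsm' : ∀ k, ‖s' k‖ ≤ m ^ k := fun k => (hs' k).trans (by
    gcongr
    exact le_max_right _ _)
  obtain ⟨n₁, hn₁⟩ := escape f f.natDegree (by omega) c s m hc hm1 s0 hsm
    (fun Z hZ => hF Z ((le_max_left _ _).trans_lt hZ)) x hx
  obtain ⟨n₂, hn₂⟩ := escape g g.natDegree (by omega) c' s' m hc' hm1 s0' hsm'
    (fun Z hZ => hF' Z ((le_max_right _ _).trans_lt hZ)) y hy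
  set N := max n₁ n₂ with hN
  obtain ⟨Z, hZ, hZ'⟩ := hn₁ N (le_max_left _ _)
  obtain ⟨W, hW, hW'⟩ := hn₂ N (le_max_right _ _)
  refine EP.of_tail N ?_
  set h' : MvPolynomial (Fin 2) L :=
    MvPolynomial.aeval ![MvPolynomial.C c⁻¹ * MvPolynomial.X 0,
      MvPolynomial.C c'⁻¹ * MvPolynomial.X 1] h with hh'
  have hev : ∀ a b : L, MvPolynomial.eval ![a, b] h' =
      MvPolynomial.eval ![c⁻¹ * a, c'⁻¹ * b] h := by
    intro a b
    rw [hh', MvPolynomial.aeval_def, MvPolynomial.eval_eval₂, ← MvPolynomial.coe_eval₂Hom,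
      MvPolynomial.eval]
    congr 2
    · ext
      simp
    · funext i
      fin_cases i <;> simp
  have h0' : h' ≠ 0 := by
    intro hz
    apply h0
    apply MvPolynomial.funext
    intro v
    have h1 := hev (c * v 0) (c' * v 1)
    rw [hz, map_zero, inv_mul_cancel_left₀ hc, inv_mul_cancel_left₀ hc'] at h1
    rw [map_zero, h1]
    congr 2
    funext i
    fin_cases i <;> rfl
  have hcore := core (p := p) s s' m hm1 s0 s0' hsm hsm' f.natDegree h2 hpd Z W hZ hW h' h0'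
  have heq : {n | n + N ∈ ret f g x y h} =
      {n | MvPolynomial.eval ![psi s (Z ^ f.natDegree ^ n), psi s' (W ^ f.natDegree ^ n)] h' = 0} := by
    ext n
    simp only [Set.mem_setOf_eq, ret]
    rw [hev, ← hZ' n]
    have h3 := hW' n
    rw [← hd] at h3
    rw [← h3, inv_mul_cancel_left₀ hc, inv_mul_cancel_left₀ hc']
  rw [heq]
  exact hcore

end Pool.Agent.Helper79.DM
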