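import Pool.Agent.Helper79.DM.H2

/-!
# Final assembly, transfer to the places
-/

set_option autoImplicit false
set_option linter.unusedSectionVars false

namespace Pool.Agent.Helper79.DM

open Polynomial Finset

theorem orb_hom {A F : Type*} [CommRing A] [Field F] (σ : A →+* F) (f : A[X]) (x : A) (n : ℕ) :
    orb (f.map σ) (σ x) n = σ ((fun z => f.eval z)^[n] x) := by
  induction n with
  | zero => rfl
  | succ n ih =>
    rw [orb_succ, ih, Function.iterate_succ_apply', eval_map, eval₂_at_apply]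

theorem ret_hom {A F : Type*} [CommRing A] [Field F] (σ : A →+* F)
    (hσ : Function.Injective σ) (f g : A[X]) (x y : A) (h : MvPolynomial (Fin 2) A) :
    ret (f.map σ) (g.map σ) (σ x) (σ y) (MvPolynomial.map σ h) =
      {n | MvPolynomial.eval ![(fun z => f.eval z)^[n] x, (fun z => g.eval z)^[n] y] h = 0} := by
  ext n
  show MvPolynomial.eval ![orb (f.map σ) (σ x) n, orb (g.map σ) (σ y) n]
    (MvPolynomial.map σ h) = 0 ↔ MvPolynomial.eval _ h = 0
  rw [orb_hom, orb_hom, MvPolynomial.eval_map, ← MvPolynomial.eval₂_id,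
    ← map_eq_zero_iff σ hσ, MvPolynomial.eval₂_comp_left]
  have h1 : (![σ ((fun z => f.eval z)^[n] x), σ ((fun z => g.eval z)^[n] y)] : Fin 2 → F) =
      σ ∘ ![(fun z => f.eval z)^[n] x, (fun z => g.eval z)^[n] y] := by
    funext i
    fin_cases i <;> rfl
  rw [h1]
  rfl

theorem tame_hom {A K F : Type*} [CommRing A] [Field K] [Field F] (p : ℕ) (hp : p.Prime)
    (ι : A →+* K) (hι : Function.Injective ι) (σ : A →+* F) (hσ : Function.Injective σ) (f : A[X])
    (h : Tame p (f.map ι)) : Tame p (f.map σ) := by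
  rw [tame_iff p hp] at h ⊢
  obtain ⟨e, hk, hd⟩ := h
  refine ⟨e, fun k hk' => hk k ?_, ?_⟩
  · rw [coeff_map] at hk' ⊢
    intro hz
    rw [map_eq_zero_iff ι hι] at hz
    rw [hz, map_zero] at hk'
    exact hk' rfl
  · rw [natDegree_map_eq_of_injective hσ]
    rw [natDegree_map_eq_of_injective hι] at hd
    exact hd

theorem pure_hom {A K F : Type*} [CommRing A] [Field K] [Field F] 
    (ι : A →+* K) (hι : Function.Injective ι) (σ : A →+* F) (hσ : Function.Injective σ)
    (h : MvPolynomial (Fin 2) A) (i : Fin 2) (hp : PureTop (MvPolynomial.map ι h) i) :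
    PureTop (MvPolynomial.map σ h) i := by
  have e1 : (MvPolynomial.map ι h).support = h.support := MvPolynomial.support_map_of_injective h hι
  have e2 : (MvPolynomial.map σ h).support = h.support := MvPolynomial.support_map_of_injective h hσ
  have e3 : (MvPolynomial.map σ h).degreeOf i = (MvPolynomial.map ι h).degreeOf i := by
    rw [MvPolynomial.degreeOf_eq_sup, MvPolynomial.degreeOf_eq_sup, e1, e2]
  obtain ⟨h1, h2⟩ := hp
  refine ⟨by rw [e3]; exact h1, ?_⟩
  rw [e2, e3, ← e1]
  exact h2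

theorem same_deg_ep0 (p : ℕ) [Fact p.Prime] (K : Type) [Field K] [CharP K p] (f g : K[X])
    (hd : f.natDegree = g.natDegree) (h2 : 2 ≤ f.natDegree) (hpd : ∀ k, f.natDegree ≠ p ^ k)
    (hf : Tame p f) (hg : Tame p g) (x y : K)
    (h : MvPolynomial (Fin 2) K) (hp : PureTop h 0) : EP (ret f g x y h) := by
  have hpp : p.Prime := Fact.out
  by_cases hx : (Set.range (orb f x)).Finite
  · exact ret_ep_of_finite f g x y h hx
  obtain ⟨L, _, _, _, _, _, A, I, _, σ, N, hB, hinj, hfin, -⟩ :=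
    exists_places p K (↑f.coeffs ∪ ↑g.coeffs ∪ ↑h.coeffs ∪ {x, y})
      (((f.coeffs.finite_toSet.union g.coeffs.finite_toSet).union h.coeffs.finite_toSet).union
        (Set.toFinite _))
  have hfB : (↑f.coeffs : Set K) ⊆ A := fun z hz => hB (by simp [hz])
  have hgB : (↑g.coeffs : Set K) ⊆ A := fun z hz => hB (by simp [hz])
  have hhB : (↑h.coeffs : Set K) ⊆ A := fun z hz => hB (by simp [hz])
  have hxA : x ∈ A := hB (by simp)
  have hyA : y ∈ A := hB (by simp)
  obtain ⟨f', hf'⟩ : ∃ f' : A[X], f'.map A.subtype = f := by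
    refine (Polynomial.mem_lifts f).1 ((Polynomial.lifts_iff_coeff_lifts f).2 fun n => ?_)
    by_cases hc : f.coeff n = 0
    · exact ⟨0, by rw [map_zero, hc]⟩
    · exact ⟨⟨f.coeff n, hfB (Polynomial.coeff_mem_coeffs hc)⟩, rfl⟩
  obtain ⟨g', hg'⟩ : ∃ g' : A[X], g'.map A.subtype = g := by
    refine (Polynomial.mem_lifts g).1 ((Polynomial.lifts_iff_coeff_lifts g).2 fun n => ?_)
    by_cases hc : g.coeff n = 0
    · exact ⟨0, by rw [map_zero, hc]⟩
    · exact ⟨⟨g.coeff n, hgB (Polynomial.coeff_mem_coeffs hc)⟩, rfl⟩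
  obtain ⟨h', hh'⟩ : ∃ h' : MvPolynomial (Fin 2) A, MvPolynomial.map A.subtype h' = h := by
    refine MvPolynomial.mem_range_map_iff_coeffs_subset.2 ?_
    intro z hz
    exact ⟨⟨z, hhB hz⟩, rfl⟩
  have hinjA : Function.Injective A.subtype := Subtype.val_injective
  obtain ⟨x', hx'⟩ : ∃ x' : A, A.subtype x' = x := ⟨⟨x, hxA⟩, rfl⟩
  obtain ⟨y', hy'⟩ : ∃ y' : A, A.subtype y' = y := ⟨⟨y, hyA⟩, rfl⟩
  subst hf' hg' hh' hx' hy'
  -- a place where the first orbit is unbounded
  obtain ⟨i, hi⟩ : ∃ i, ∀ M : ℝ, ∃ n, M < ‖orb (f'.map (σ i)) (σ i x') n‖ := by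
    by_contra hcon
    push Not at hcon
    choose M hM using hcon
    apply hx
    obtain ⟨B, hBd⟩ := (Set.finite_range M).bddAbove
    refine ((hfin B).image (fun a : A => (a : K))).subset ?_
    rintro _ ⟨n, rfl⟩
    refine ⟨(fun z => f'.eval z)^[n] x', fun j => ?_, ?_⟩
    · rw [← orb_hom]
      exact (hM j n).trans (hBd ⟨j, rfl⟩)
    · exact (orb_hom A.subtype f' x' n).symm
  have hσ := hinj i
  have hdf : (f'.map (σ i)).natDegree = (f'.map A.subtype).natDegree := by
    rw [natDegree_map_eq_of_injective hσ, natDegree_map_eq_of_injective hinjA]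
  have hdg : (g'.map (σ i)).natDegree = (g'.map A.subtype).natDegree := by
    rw [natDegree_map_eq_of_injective hσ, natDegree_map_eq_of_injective hinjA]
  have key := local_pure (p := p) (f'.map (σ i)) (g'.map (σ i)) (by rw [hdf, hdg, hd])
    (by rw [hdf]; exact h2) (by rw [hdf]; exact hpd) (tame_hom p hpp _ hinjA _ hσ _ hf)
    (tame_hom p hpp _ hinjA _ hσ _ hg) (σ i x') (σ i y') hi (MvPolynomial.map (σ i) h')
    (pure_hom _ hinjA _ hσ _ _ hp)
  rw [ret_hom _ hσ] at key
  rw [ret_hom _ hinjA]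
  exact key

theorem same_deg_ep (p : ℕ) [Fact p.Prime] (K : Type) [Field K] [CharP K p] (f g : K[X])
    (hd : f.natDegree = g.natDegree) (h2 : 2 ≤ f.natDegree) (hpd : ∀ k, f.natDegree ≠ p ^ k)
    (hf : Tame p f) (hg : Tame p g) (x y : K)
    (h : MvPolynomial (Fin 2) K) (hp : ∃ i, PureTop h i) : EP (ret f g x y h) := by
  obtain ⟨i, hi⟩ := hp
  have hi' : i = 0 ∨ i = 1 := by
    fin_cases i
    · exact Or.inl rfl
    · exact Or.inr rfl
  rcases hi' with rfl | rfl
  · exact same_deg_ep0 p K f g hd h2 hpd hf hg x y h hi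
  · rw [ret_swap]
    refine same_deg_ep0 p K g f hd.symm (hd ▸ h2) (hd ▸ hpd) hg hf y x _ ?_
    have hinj : Function.Injective (Equiv.swap (0 : Fin 2) 1) := (Equiv.swap (0 : Fin 2) 1).injective
    have hdeg : (MvPolynomial.rename (Equiv.swap (0 : Fin 2) 1) h).degreeOf 0 = h.degreeOf 1 := by
      have := MvPolynomial.degreeOf_rename_of_injective (p := h) hinj 1
      rwa [Equiv.swap_apply_right] at this
    refine ⟨by rw [hdeg]; exact hi.1, fun m hm hm0 j hj => ?_⟩
    have hj1 : j = 1 := by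
      fin_cases j
      · exact absurd rfl hj
      · rfl
    subst hj1
    rw [MvPolynomial.support_rename_of_injective hinj, Finset.mem_image] at hm
    obtain ⟨m', hm', rfl⟩ := hm
    have e0 : (Finsupp.mapDomain (Equiv.swap (0 : Fin 2) 1) m') 0 = m' 1 := by
      have := Finsupp.mapDomain_apply hinj m' 1
      rwa [Equiv.swap_apply_right] at this
    have e1 : (Finsupp.mapDomain (Equiv.swap (0 : Fin 2) 1) m') 1 = m' 0 := by
      have := Finsupp.mapDomain_apply hinj m' 0
      rwa [Equiv.swap_apply_left] at this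
    rw [e1]
    rw [e0, hdeg] at hm0
    exact hi.2 m' hm' hm0 0 (by decide)

theorem abs_ep (p : ℕ) [Fact p.Prime] (K : Type) [Field K] [CharP K p] (f g : K[X])
    (hd : f.natDegree = g.natDegree) (h2 : 2 ≤ f.natDegree) (hpd : ∀ k, f.natDegree ≠ p ^ k)
    (hf : Tame p f) (hg : Tame p g) (x y : K) (h : MvPolynomial (Fin 2) K) (h0 : h ≠ 0)
    (v : AbsoluteValue K ℝ) (hv : ∀ x y, v (x + y) ≤ max (v x) (v y))
    (hx : ∀ M : ℝ, ∃ n, M < v (orb f x n)) (hy : ∀ M : ℝ, ∃ n, M < v (orb g y n)) :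
    EP (ret f g x y h) := by
  have hpp : p.Prime := Fact.out
  obtain ⟨n, hn⟩ := hx 1
  obtain ⟨L, _, _, _, _, _, σ, hσv⟩ := place_of_abs p K v hv ⟨_, hn⟩
  have hσ : Function.Injective σ := σ.injective
  have hid : Function.Injective (RingHom.id K) := fun a b h => h
  have hdf : (f.map σ).natDegree = f.natDegree := natDegree_map_eq_of_injective hσ f
  have hdg : (g.map σ).natDegree = g.natDegree := natDegree_map_eq_of_injective hσ g
  have key := local_ep (p := p) (f.map σ) (g.map σ) (by rw [hdf, hdg, hd])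
    (by rw [hdf]; exact h2) (by rw [hdf]; exact hpd)
    (tame_hom p hpp (RingHom.id K) hid σ hσ f (by rw [Polynomial.map_id]; exact hf))
    (tame_hom p hpp (RingHom.id K) hid σ hσ g (by rw [Polynomial.map_id]; exact hg))
    (σ x) (σ y) (fun M => by
      obtain ⟨n, hn⟩ := hx M
      exact ⟨n, by rw [orb_map, hσv]; exact hn⟩) (fun M => by
      obtain ⟨n, hn⟩ := hy M
      exact ⟨n, by rw [orb_map, hσv]; exact hn⟩) (MvPolynomial.map σ h) (by
      intro hz
      apply h0
      exact MvPolynomial.map_injective σ hσ (by rw [hz, map_zero]))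
  rw [ret_hom _ hσ] at key
  exact key

theorem final (p : ℕ) (hp : p.Prime) (K : Type) [Field K] [CharP K p] (f g : K[X]) (x y : K)
    (h : MvPolynomial (Fin 2) K) (h0 : 0 < h.totalDegree)
    (H : f.natDegree ≠ g.natDegree ∨ ((∀ k, f.natDegree ≠ p ^ k) ∧ Tame p f ∧ Tame p g ∧
      ((∀ k : MvPolynomial (Fin 2) K, Irreducible k → k ∣ h → ∃ i, PureTop k i) ∨
        ∃ v : AbsoluteValue K ℝ, (∀ x y, v (x + y) ≤ max (v x) (v y)) ∧
          (∀ M : ℝ, ∃ n, M < v (orb f x n)) ∧ (∀ M : ℝ, ∃ n, M < v (orb g y n))))) :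
    ∃ U : Finset (ℕ × ℕ), ret f g x y h = {n : ℕ | ∃ q ∈ U, ∃ k : ℕ, n = q.1 * k + q.2} := by
  haveI : Fact p.Prime := ⟨hp⟩
  have hne : h ≠ 0 := by
    rintro rfl
    simp at h0
  apply EP.rep
  rcases H with H | ⟨hpd, hf, hg, H⟩
  · exact deg_ne_ep p K f g H x y h hne
  by_cases hd : f.natDegree = g.natDegree
  · by_cases hf0 : f.natDegree = 0
    · -- constant polynomials: finite orbits
      refine ret_ep_of_finite f g x y h ?_
      obtain ⟨c, hc⟩ : ∃ c, f = C c := ⟨_, eq_C_of_natDegree_eq_zero hf0⟩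
      refine (Set.toFinite ({x, c} : Set K)).subset ?_
      rintro _ ⟨n, rfl⟩
      cases n with
      | zero => exact Or.inl rfl
      | succ n =>
        right
        show orb f x (n + 1) = c
        rw [orb_succ, hc, eval_C]
    · have h1 : f.natDegree ≠ 1 := by
        have := hpd 0
        rwa [pow_zero] at this
      have h2 : 2 ≤ f.natDegree := by omega
      rcases H with H | ⟨v, hv, hx, hy⟩
      · exact ret_of_factors f g x y h hne fun k hk hkh =>
          same_deg_ep p K f g hd h2 hpd hf hg x y k (H k hk hkh)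
      · exact abs_ep p K f g hd h2 hpd hf hg x y h hne v hv hx hy
  · exact deg_ne_ep p K f g hd x y h hne

end Pool.Agent.Helper79.DM
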